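import Mathlib

set_option autoImplicit false

open Polynomial

namespace Pool.Agent.Helper428.AN

/-- The pair `(a, b)` is realised by a two-terminal gadget: a finite graph `T` together with the
sets `Ns`, `Nt` of neighbours of the two (non-adjacent) terminals; if the terminals have colours
`c`, `c'` then the number of extensions to a proper `q`-colouring is `a(q)` if `c = c'` and
`b(q)` if `c ≠ c'`. -/
def IsGadget (a b : ℤ[X]) : Prop :=
  ∃ (T : Type) (_ : Fintype T) (G : SimpleGraph T) (Ns Nt : Set T),
    ∀ (q : ℕ) (c c' : Fin q),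
      (Nat.card {f : T → Fin q // (∀ x y, G.Adj x y → f x ≠ f y) ∧ (∀ x ∈ Ns, f x ≠ c) ∧
        ∀ x ∈ Nt, f x ≠ c'} : ℤ) = if c = c' then a.eval (q : ℤ) else b.eval (q : ℤ)

end Pool.Agent.Helper428.AN
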