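import Pool.Agent.Helper428.AN.Defs

set_option autoImplicit false

open Polynomial

namespace Pool.Agent.Helper428.AN



theorem er_im_pow (ξ : ℂ) (n : ℕ) : (ξ ^ n).im = ‖ξ‖ ^ n * Real.sin (n * Complex.arg ξ) := by
  have h := Complex.norm_mul_exp_arg_mul_I ξ
  have h2 : ξ ^ n = ((‖ξ‖ ^ n : ℝ) : ℂ) * Complex.exp (((n * Complex.arg ξ : ℝ) : ℂ) * Complex.I) := by
    conv_lhs => rw [← h]
    rw [mul_pow, ← Complex.exp_nat_mul]
    push_cast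
    congr 2
    ring
  rw [h2, Complex.im_ofReal_mul, Complex.exp_ofReal_mul_I_im]

theorem er_pos (ξ : ℂ) (h : 0 < ξ.im) :
    ∃ (n : ℕ) (c₁ c₂ : ℝ), 1 ≤ n ∧ 0 ≤ c₁ ∧ 0 ≤ c₂ ∧ 1 + c₁ * ξ ^ n + c₂ * ξ ^ (n + 1) = 0 := by
  have hex : ∃ n : ℕ, 1 ≤ n ∧ 0 < (ξ ^ n).im ∧ (ξ ^ (n + 1)).im ≤ 0 := by
    by_contra hcon
    push Not at hcon
    have hall : ∀ n : ℕ, 0 < (ξ ^ (n + 1)).im := by
      intro n
      induction n with
      | zero => simpa using h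
      | succ n ih => exact hcon (n + 1) (by omega) ih
    have hξ : ξ ≠ 0 := by
      intro h0
      rw [h0] at h
      simp at h
    have hnorm : 0 < ‖ξ‖ := norm_pos_iff.mpr hξ
    obtain ⟨θ, hθ⟩ : ∃ θ, θ = Complex.arg ξ := ⟨_, rfl⟩
    have hθ0 : 0 < θ := by
      rw [hθ]
      rcases (Complex.arg_nonneg_iff.mpr h.le).eq_or_lt with h1 | h1
      · exfalso
        have h2 := (Complex.arg_eq_zero_iff.mp h1.symm).2
        linarith
      · exact h1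
    have hθπ : θ < Real.pi := by
      rw [hθ]
      refine lt_of_le_of_ne (Complex.arg_le_pi ξ) ?_
      intro h1
      have h2 := (Complex.arg_eq_pi_iff.mp h1).2
      linarith
    have hpi := Real.pi_pos
    have hn0 : 0 < ⌈Real.pi / θ⌉₊ := Nat.ceil_pos.mpr (by positivity)
    have hn1 : Real.pi ≤ ⌈Real.pi / θ⌉₊ * θ := by
      have := Nat.le_ceil (Real.pi / θ)
      rwa [div_le_iff₀ hθ0] at this
    have hn2 : (⌈Real.pi / θ⌉₊ : ℝ) * θ < Real.pi + θ := by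
      have h1 := Nat.ceil_lt_add_one (show 0 ≤ Real.pi / θ by positivity)
      calc (⌈Real.pi / θ⌉₊ : ℝ) * θ < (Real.pi / θ + 1) * θ := by
            exact mul_lt_mul_of_pos_right h1 hθ0
        _ = Real.pi + θ := by field_simp
    have h3 := hall (⌈Real.pi / θ⌉₊ - 1)
    rw [Nat.sub_add_cancel hn0, er_im_pow, ← hθ] at h3
    have h4 : Real.sin ((⌈Real.pi / θ⌉₊ : ℝ) * θ) ≤ 0 := by
      have h5 : 0 ≤ Real.sin ((⌈Real.pi / θ⌉₊ : ℝ) * θ - Real.pi) :=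
        Real.sin_nonneg_of_nonneg_of_le_pi (by linarith) (by linarith)
      rw [Real.sin_sub_pi] at h5
      linarith
    have h5 : 0 < ‖ξ‖ ^ ⌈Real.pi / θ⌉₊ := pow_pos hnorm _
    nlinarith
  obtain ⟨n, hn, h1, h2⟩ := hex
  obtain ⟨u, hu⟩ : ∃ u, u = ξ ^ n := ⟨_, rfl⟩
  rw [pow_succ ξ n, ← hu] at h2
  rw [← hu] at h1
  have hD : 0 < (u.re ^ 2 + u.im ^ 2) * ξ.im := by
    have : 0 < u.im ^ 2 := by positivity
    have : 0 ≤ u.re ^ 2 := sq_nonneg _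
    have : 0 < u.re ^ 2 + u.im ^ 2 := by linarith
    positivity
  refine ⟨n, -(u * ξ).im / ((u.re ^ 2 + u.im ^ 2) * ξ.im), u.im / ((u.re ^ 2 + u.im ^ 2) * ξ.im),
    hn, div_nonneg (by linarith) hD.le, div_nonneg h1.le hD.le, ?_⟩
  rw [pow_succ ξ n, ← hu]
  obtain ⟨x, hx⟩ : ∃ x, x = u.re := ⟨_, rfl⟩
  obtain ⟨y, hy⟩ : ∃ y, y = u.im := ⟨_, rfl⟩
  obtain ⟨p, hp⟩ : ∃ x, x = ξ.re := ⟨_, rfl⟩
  obtain ⟨q, hq⟩ : ∃ y, y = ξ.im := ⟨_, rfl⟩
  have hne : (u.re ^ 2 + u.im ^ 2) * ξ.im ≠ 0 := hD.ne'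
  have hq0 : ξ.im ≠ 0 := h.ne'
  have hs0 : u.re ^ 2 + u.im ^ 2 ≠ 0 := fun h0 => hne (by rw [h0, zero_mul])
  apply Complex.ext
  · simp only [Complex.add_re, Complex.one_re, Complex.mul_re, Complex.ofReal_re,
      Complex.ofReal_im, Complex.mul_im, Complex.zero_re]
    rw [← hx, ← hy, ← hp, ← hq] at *
    field_simp
    ring
  · simp only [Complex.add_im, Complex.one_im, Complex.mul_re, Complex.ofReal_re,
      Complex.ofReal_im, Complex.mul_im, Complex.zero_im]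
    rw [← hx, ← hy, ← hp, ← hq] at *
    field_simp
    ring

theorem exists_rel (ξ : ℂ) (h : ξ.im ≠ 0 ∨ ξ.re < 0) :
    ∃ (n : ℕ) (c₁ c₂ : ℝ), 1 ≤ n ∧ 0 ≤ c₁ ∧ 0 ≤ c₂ ∧ 1 + c₁ * ξ ^ n + c₂ * ξ ^ (n + 1) = 0 := by
  rcases lt_trichotomy ξ.im 0 with h1 | h1 | h1
  · obtain ⟨n, c1, c2, hn, hc1, hc2, he⟩ := er_pos ((starRingEnd ℂ) ξ) (by simpa using h1)
    refine ⟨n, c1, c2, hn, hc1, hc2, ?_⟩
    have h2 := congrArg (starRingEnd ℂ) he
    simpa using h2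
  · rcases h with h | h
    · exact absurd h1 h
    · refine ⟨1, -ξ.re⁻¹, 0, le_rfl, ?_, le_rfl, ?_⟩
      · have := inv_lt_zero.mpr h
        linarith
      · have h2 : ξ = (ξ.re : ℂ) := by
          apply Complex.ext
          · simp
          · simp [h1]
        rw [h2]
        have h3 : (ξ.re : ℂ) ≠ 0 := by exact_mod_cast h.ne
        push_cast
        rw [Complex.ofReal_re]
        field_simp
        ring
  · exact er_pos ξ h1

end Pool.Agent.Helper428.AN
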