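import Pool.Agent.Helper428.AN.Defs
import Pool.Agent.Helper428.AN.P_exists_rel

set_option autoImplicit false

open Polynomial

namespace Pool.Agent.Helper428.AN



theorem nonneg_poly (S : Finset ℂ) (h : ∀ ξ ∈ S, ξ.im ≠ 0 ∨ ξ.re < 0) :
    ∃ g : ℝ[X], (∀ i, 0 ≤ g.coeff i) ∧ g.coeff 0 = 1 ∧ ∀ ξ ∈ S, aeval ξ g = 0 := by
  classical
  induction S using Finset.induction_on with
  | empty =>
    refine ⟨1, fun i => ?_, by simp, by simp⟩
    rw [Polynomial.coeff_one]
    split_ifs <;> norm_num
  | insert a S ha ih =>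
    obtain ⟨g, hg1, hg2, hg3⟩ := ih (fun ξ hξ => h ξ (Finset.mem_insert_of_mem hξ))
    obtain ⟨n, c₁, c₂, hn, h1, h2, hrel⟩ := exists_rel a (h a (Finset.mem_insert_self a S))
    set f : ℝ[X] := 1 + C c₁ * X ^ n + C c₂ * X ^ (n + 1) with hf
    have hfc : ∀ i, 0 ≤ f.coeff i := by
      intro i
      rw [hf, Polynomial.coeff_add, Polynomial.coeff_add, Polynomial.coeff_one,
        Polynomial.coeff_C_mul, Polynomial.coeff_C_mul, Polynomial.coeff_X_pow,
        Polynomial.coeff_X_pow]
      split_ifs <;> nlinarith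
    have hf0 : f.coeff 0 = 1 := by
      rw [hf, Polynomial.coeff_add, Polynomial.coeff_add, Polynomial.coeff_one,
        Polynomial.coeff_C_mul, Polynomial.coeff_C_mul, Polynomial.coeff_X_pow,
        Polynomial.coeff_X_pow]
      rw [if_pos rfl, if_neg (by omega), if_neg (by omega)]
      simp
    refine ⟨f * g, fun i => ?_, ?_, ?_⟩
    · rw [Polynomial.coeff_mul]
      exact Finset.sum_nonneg (fun p _ => mul_nonneg (hfc _) (hg1 _))
    · rw [Polynomial.mul_coeff_zero, hf0, hg2, one_mul]
    · intro ξ hξ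
      rw [map_mul]
      rcases Finset.mem_insert.mp hξ with rfl | hξ
      · have : aeval ξ f = 0 := by
          rw [hf]
          simp only [map_add, map_one, map_mul, aeval_C, map_pow, aeval_X]
          exact hrel
        rw [this, zero_mul]
      · rw [hg3 ξ hξ, mul_zero]

end Pool.Agent.Helper428.AN
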