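import Pool.Agent.Helper428.AN.Defs
import Pool.Agent.Helper428.AN.P_nonneg_poly

set_option autoImplicit false

open Polynomial

namespace Pool.Agent.Helper428.AN



theorem dvd221 (β : ℂ) (hβ : IsIntegral ℚ β) (G : ℝ[X])
    (h : ∀ z : ℂ, aeval z (minpoly ℚ β) = 0 → aeval z G = 0) :
    (minpoly ℚ β).map (algebraMap ℚ ℝ) ∣ G := by
  by_cases hG : G = 0
  · rw [hG]; exact dvd_zero _
  rw [← Polynomial.map_dvd_map' (algebraMap ℝ ℂ), Polynomial.map_map]
  have hcomp : (algebraMap ℝ ℂ).comp (algebraMap ℚ ℝ) = algebraMap ℚ ℂ := by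
    ext; simp
  rw [hcomp]
  have hirr := minpoly.irreducible hβ
  have hsep : ((minpoly ℚ β).map (algebraMap ℚ ℂ)).Separable := hirr.separable.map
  have h0 : (minpoly ℚ β).map (algebraMap ℚ ℂ) ≠ 0 :=
    (Polynomial.map_ne_zero_iff (algebraMap ℚ ℂ).injective).2 hirr.ne_zero
  have hG0 : G.map (algebraMap ℝ ℂ) ≠ 0 :=
    (Polynomial.map_ne_zero_iff (algebraMap ℝ ℂ).injective).2 hG
  refine Polynomial.Splits.dvd_of_roots_le_roots (IsAlgClosed.splits _) h0 ?_
  rw [Multiset.le_iff_subset (Polynomial.nodup_roots hsep)]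
  intro z hz
  rw [Polynomial.mem_roots h0, Polynomial.IsRoot.def, Polynomial.eval_map_algebraMap] at hz
  rw [Polynomial.mem_roots hG0, Polynomial.IsRoot.def, Polynomial.eval_map_algebraMap]
  exact h z hz

theorem below_bound (K : IntermediateField ℚ ℂ) (β : ℂ) (hβK : β ∈ K) (hβ : IsIntegral ℤ β)
    (a₀ b₀ : ℤ[X])
    (h₀ : ∀ z : ℂ, aeval z (minpoly ℚ β) = 0 →
      aeval z b₀ ≠ 0 ∧ ((aeval z a₀ / aeval z b₀ : ℂ).im ≠ 0 ∨
        (aeval z a₀ / aeval z b₀ : ℂ).re < 0))
    (X₀ : K) (hX₀ : (X₀ : ℂ) = aeval β a₀ / aeval β b₀) :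
    ∃ B : ℝ, 0 ≤ B ∧ ∀ (ℓ : K →ₗ[ℚ] ℝ) (L : ℝ) (y : K),
      (∀ i : ℕ, ℓ (X₀ ^ i * y) ≤ L) → -B * L ≤ ℓ y := by
  classical
  have hβQ : IsIntegral ℚ β := hβ.tower_top
  set P := minpoly ℚ β with hP
  have hP0 : P.map (algebraMap ℚ ℂ) ≠ 0 :=
    (Polynomial.map_ne_zero_iff (algebraMap ℚ ℂ).injective).2 (minpoly.irreducible hβQ).ne_zero
  obtain ⟨g, hg0, hg1, hg⟩ := nonneg_poly
    ((P.map (algebraMap ℚ ℂ)).roots.toFinset.image (fun z => aeval z a₀ / aeval z b₀)) (by
      intro ξ hξ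
      obtain ⟨z, hz, rfl⟩ := Finset.mem_image.1 hξ
      rw [Multiset.mem_toFinset, Polynomial.mem_roots hP0, Polynomial.IsRoot.def,
        Polynomial.eval_map_algebraMap] at hz
      exact (h₀ z hz).2)
  set n := g.natDegree with hn
  -- the homogenised polynomial
  let A : ℝ[X] := (a₀.map (algebraMap ℤ ℚ)).map (algebraMap ℚ ℝ)
  let B : ℝ[X] := (b₀.map (algebraMap ℤ ℚ)).map (algebraMap ℚ ℝ)
  have hA : ∀ z : ℂ, aeval z A = aeval z a₀ := by
    intro z
    simp only [A]
    rw [Polynomial.aeval_map_algebraMap, Polynomial.aeval_map_algebraMap]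
  have hB : ∀ z : ℂ, aeval z B = aeval z b₀ := by
    intro z
    simp only [B]
    rw [Polynomial.aeval_map_algebraMap, Polynomial.aeval_map_algebraMap]
  let G : ℝ[X] := ∑ i ∈ Finset.range (n + 1), g.coeff i • (A ^ i * B ^ (n - i))
  have hGroot : ∀ z : ℂ, aeval z P = 0 → aeval z G = 0 := by
    intro z hz
    have hb := (h₀ z hz).1
    have hz' : aeval (aeval z a₀ / aeval z b₀ : ℂ) g = 0 := by
      apply hg
      refine Finset.mem_image.2 ⟨z, ?_, rfl⟩
      rw [Multiset.mem_toFinset, Polynomial.mem_roots hP0, Polynomial.IsRoot.def,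
        Polynomial.eval_map_algebraMap]
      exact hz
    rw [Polynomial.aeval_eq_sum_range] at hz'
    simp only [G, map_sum, map_smul, map_mul, map_pow, hA, hB]
    have : (∑ i ∈ Finset.range (n + 1),
        g.coeff i • ((aeval z a₀ : ℂ) ^ i * (aeval z b₀ : ℂ) ^ (n - i))) =
        (aeval z b₀ : ℂ) ^ n * ∑ i ∈ Finset.range (n + 1),
          g.coeff i • (aeval z a₀ / aeval z b₀ : ℂ) ^ i := by
      rw [Finset.mul_sum]
      apply Finset.sum_congr rfl
      intro i hi
      have hi' : i ≤ n := Nat.lt_succ_iff.1 (Finset.mem_range.1 hi)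
      rw [mul_smul_comm]
      congr 1
      rw [div_pow]
      have : (aeval z b₀ : ℂ) ^ n = (aeval z b₀ : ℂ) ^ i * (aeval z b₀ : ℂ) ^ (n - i) := by
        rw [← pow_add, Nat.add_sub_cancel' hi']
      rw [this]
      field_simp
    rw [this, hz', mul_zero]
  obtain ⟨Q, hQ⟩ := dvd221 β hβQ G hGroot
  -- elements of K
  let βK : K := ⟨β, hβK⟩
  have hβKval : ∀ u : ℚ[X], ((aeval βK u : K) : ℂ) = aeval β u := by
    intro u
    have := Polynomial.aeval_algebraMap_apply ℂ βK u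
    exact this.symm
  have hPK : aeval βK P = 0 := by
    apply Subtype.ext
    rw [hβKval]
    simp [hP, minpoly.aeval]
  let aK : K := aeval βK (a₀.map (algebraMap ℤ ℚ))
  let bK : K := aeval βK (b₀.map (algebraMap ℤ ℚ))
  have haK : (aK : ℂ) = aeval β a₀ := by
    simp only [aK]; rw [hβKval, Polynomial.aeval_map_algebraMap]
  have hbK : (bK : ℂ) = aeval β b₀ := by
    simp only [bK]; rw [hβKval, Polynomial.aeval_map_algebraMap]
  have hbne : bK ≠ 0 := by
    intro h
    have h1 : (bK : ℂ) = 0 := by rw [h]; simp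
    rw [hbK] at h1
    exact (h₀ β (by rw [hP]; exact minpoly.aeval ℚ β)).1 h1
  have hX : X₀ = aK / bK := by
    apply Subtype.ext
    rw [hX₀]
    push_cast
    rw [haK, hbK]
  refine ⟨∑ i ∈ Finset.range n, g.coeff (i + 1), Finset.sum_nonneg fun i _ => hg0 _, ?_⟩
  intro ℓ L y hL
  let c : K := y / bK ^ n
  let Λ : ℝ[X] →ₗ[ℝ] ℝ := (Polynomial.basisMonomials ℝ).constr ℝ (fun j => ℓ (βK ^ j * c))
  have hΛmon : ∀ (j : ℕ) (r : ℝ), Λ (Polynomial.monomial j r) = r * ℓ (βK ^ j * c) := by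
    intro j r
    have h1 : Polynomial.monomial j r = r • (Polynomial.basisMonomials ℝ j) := by
      rw [Polynomial.coe_basisMonomials, Polynomial.smul_monomial, smul_eq_mul, mul_one]
    rw [h1, map_smul, Module.Basis.constr_basis, smul_eq_mul]
  have hΛ : ∀ u : ℚ[X], Λ (u.map (algebraMap ℚ ℝ)) = ℓ (aeval βK u * c) := by
    intro u
    induction u using Polynomial.induction_on' with
    | add p q hp hq => rw [Polynomial.map_add, map_add, hp, hq, map_add, add_mul, map_add]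
    | monomial j r =>
      have h2 : (algebraMap ℚ K) r * βK ^ j * c = r • (βK ^ j * c) := by
        rw [Algebra.smul_def, mul_assoc]
      rw [Polynomial.map_monomial, hΛmon, Polynomial.aeval_monomial, h2, map_smul,
        Algebra.smul_def]
  have hΛP : ∀ q : ℝ[X], Λ (P.map (algebraMap ℚ ℝ) * q) = 0 := by
    intro q
    induction q using Polynomial.induction_on' with
    | add p q hp hq => rw [mul_add, map_add, hp, hq, add_zero]
    | monomial j r =>
      have h1 : P.map (algebraMap ℚ ℝ) * Polynomial.monomial j r =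
          r • ((P * Polynomial.monomial j (1 : ℚ)).map (algebraMap ℚ ℝ)) := by
        rw [Polynomial.map_mul, Polynomial.map_monomial, map_one, ← mul_smul_comm,
          Polynomial.smul_monomial, smul_eq_mul, mul_one]
      rw [h1, map_smul, hΛ, map_mul (aeval βK), hPK, zero_mul, zero_mul, map_zero, smul_zero]
  have hΛG : Λ G = 0 := by rw [hQ]; exact hΛP Q
  have hsum : ∑ i ∈ Finset.range (n + 1), g.coeff i * ℓ (X₀ ^ i * y) = 0 := by
    rw [← hΛG]
    simp only [G, map_sum, map_smul, smul_eq_mul]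
    apply Finset.sum_congr rfl
    intro i hi
    have hi' : i ≤ n := Nat.lt_succ_iff.1 (Finset.mem_range.1 hi)
    congr 1
    have h1 : A ^ i * B ^ (n - i) =
        ((a₀.map (algebraMap ℤ ℚ)) ^ i * (b₀.map (algebraMap ℤ ℚ)) ^ (n - i)).map
          (algebraMap ℚ ℝ) := by
      simp [A, B, Polynomial.map_mul, Polynomial.map_pow]
    rw [h1, hΛ]
    congr 1
    rw [map_mul (aeval βK), map_pow (aeval βK), map_pow (aeval βK)]
    show X₀ ^ i * y = aK ^ i * bK ^ (n - i) * (y / bK ^ n)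
    rw [hX, div_pow]
    have : bK ^ n = bK ^ i * bK ^ (n - i) := by
      rw [← pow_add, Nat.add_sub_cancel' hi']
    rw [this]
    field_simp
  rw [Finset.sum_range_succ'] at hsum
  simp only [pow_zero, one_mul, hg1] at hsum
  have hle : ∑ i ∈ Finset.range n, g.coeff (i + 1) * ℓ (X₀ ^ (i + 1) * y) ≤
      (∑ i ∈ Finset.range n, g.coeff (i + 1)) * L := by
    rw [Finset.sum_mul]
    exact Finset.sum_le_sum fun i _ => mul_le_mul_of_nonneg_left (hL _) (hg0 _)
  linarith

end Pool.Agent.Helper428.AN
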