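import Pool.Agent.Helper428.AN.Defs

set_option autoImplicit false

open Polynomial

namespace Pool.Agent.Helper428.AN



/-- add a vertex adjacent to all vertices -/
def gjG {T : Type} (G : SimpleGraph T) : SimpleGraph (Option T) where
  Adj u v := (u = none ∧ v ≠ none) ∨ (u ≠ none ∧ v = none) ∨
    ∃ x y, u = some x ∧ v = some y ∧ G.Adj x y
  symm := ⟨by
    rintro u v (⟨h1, h2⟩ | ⟨h1, h2⟩ | ⟨x, y, h1, h2, h3⟩)
    · exact Or.inr (Or.inl ⟨h2, h1⟩)
    · exact Or.inl ⟨h2, h1⟩
    · exact Or.inr (Or.inr ⟨y, x, h2, h1, h3.symm⟩)⟩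
  loopless := ⟨by
    rintro u (⟨h1, h2⟩ | ⟨h1, h2⟩ | ⟨x, y, h1, h2, h3⟩)
    · exact h2 h1
    · exact h1 h2
    · rw [h1] at h2
      have := Option.some.inj h2
      subst this
      exact G.loopless.irrefl _ h3⟩

theorem gj_fiber {T : Type} (G : SimpleGraph T) (Ns Nt : Set T) (q : ℕ) (c c' : Fin q)
    (d : Fin (q + 1)) :
    Nat.card {f : T → Fin (q + 1) // ((∀ x y, G.Adj x y → f x ≠ f y) ∧
        (∀ x ∈ Ns, f x ≠ d.succAbove c) ∧ ∀ x ∈ Nt, f x ≠ d.succAbove c') ∧ ∀ x, f x ≠ d} =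
    Nat.card {f : T → Fin q // (∀ x y, G.Adj x y → f x ≠ f y) ∧ (∀ x ∈ Ns, f x ≠ c) ∧
        ∀ x ∈ Nt, f x ≠ c'} := by
  symm
  have hinj : Function.Injective d.succAbove := Fin.succAbove_right_injective
  apply Nat.card_congr
  refine Equiv.ofBijective (fun f => ⟨fun x => d.succAbove (f.1 x), ⟨?_, ?_, ?_⟩, ?_⟩) ⟨?_, ?_⟩
  · intro x y hxy h
    exact f.2.1 x y hxy (hinj h)
  · intro x hx h
    exact f.2.2.1 x hx (hinj h)
  · intro x hx h
    exact f.2.2.2 x hx (hinj h)
  · intro x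
    exact Fin.succAbove_ne _ _
  · intro f g hfg
    apply Subtype.ext
    funext x
    have h1 := congrFun (congrArg Subtype.val hfg) x
    exact hinj h1
  · rintro ⟨f, ⟨h1, h2, h3⟩, h4⟩
    choose g hg using fun x => Fin.exists_succAbove_eq (h4 x)
    refine ⟨⟨g, ?_, ?_, ?_⟩, ?_⟩
    · intro x y hxy h
      apply h1 x y hxy
      rw [← hg x, ← hg y, h]
    · intro x hx h
      apply h2 x hx
      rw [← hg x, h]
    · intro x hx h
      apply h3 x hx
      rw [← hg x, h]
    · apply Subtype.ext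
      funext x
      exact hg x

theorem gj_card {T : Type} [Fintype T] (G : SimpleGraph T) (Ns Nt : Set T) (q : ℕ)
    (c c' : Fin q) :
    Nat.card {f : Option T → Fin q // (∀ x y, (gjG G).Adj x y → f x ≠ f y) ∧
        (∀ x ∈ {u : Option T | u = none ∨ ∃ x ∈ Ns, u = some x}, f x ≠ c) ∧
        ∀ x ∈ {u : Option T | u = none ∨ ∃ x ∈ Nt, u = some x}, f x ≠ c'} =
    ∑ d : {d : Fin q // d ≠ c ∧ d ≠ c'},
      Nat.card {f : T → Fin q // ((∀ x y, G.Adj x y → f x ≠ f y) ∧
        (∀ x ∈ Ns, f x ≠ c) ∧ ∀ x ∈ Nt, f x ≠ c') ∧ ∀ x, f x ≠ d.1} := by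
  classical
  rw [← Nat.card_sigma]
  apply Nat.card_congr
  exact
    { toFun := fun f => ⟨⟨f.1 none, f.2.2.1 none (Or.inl rfl), f.2.2.2 none (Or.inl rfl)⟩,
        ⟨fun x => f.1 (some x), ⟨fun x y hxy => f.2.1 _ _ (Or.inr (Or.inr ⟨x, y, rfl, rfl, hxy⟩)),
          fun x hx => f.2.2.1 _ (Or.inr ⟨x, hx, rfl⟩),
          fun x hx => f.2.2.2 _ (Or.inr ⟨x, hx, rfl⟩)⟩,
          fun x => f.2.1 _ _ (Or.inr (Or.inl ⟨Option.some_ne_none x, rfl⟩))⟩⟩
      invFun := fun p => ⟨fun u => u.elim p.1.1 p.2.1, by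
        refine ⟨?_, ?_, ?_⟩
        · rintro u v (⟨h1, h2⟩ | ⟨h1, h2⟩ | ⟨x, y, h1, h2, h3⟩)
          · subst h1
            cases v with
            | none => exact absurd rfl h2
            | some y => exact (p.2.2.2 y).symm
          · subst h2
            cases u with
            | none => exact absurd rfl h1
            | some y => exact (p.2.2.2 y)
          · subst h1
            subst h2
            exact p.2.2.1.1 x y h3
        · rintro u (h1 | ⟨x, hx, h1⟩)
          · subst h1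
            exact p.1.2.1
          · subst h1
            exact p.2.2.1.2.1 x hx
        · rintro u (h1 | ⟨x, hx, h1⟩)
          · subst h1
            exact p.1.2.2
          · subst h1
            exact p.2.2.1.2.2 x hx⟩
      left_inv := by
        intro f
        apply Subtype.ext
        funext u
        cases u <;> rfl
      right_inv := by
        rintro ⟨d, f⟩
        rfl }

theorem g_join {a b : ℤ[X]} (h : IsGadget a b) :
    IsGadget ((X - 1) * a.comp (X - 1)) ((X - 2) * b.comp (X - 1)) := by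
  classical
  obtain ⟨T, hT, G, Ns, Nt, H⟩ := h
  refine ⟨Option T, inferInstance, gjG G, {u : Option T | u = none ∨ ∃ x ∈ Ns, u = some x},
    {u : Option T | u = none ∨ ∃ x ∈ Nt, u = some x}, ?_⟩
  intro q c c'
  rw [gj_card]
  obtain ⟨q', rfl⟩ : ∃ q', q = q' + 1 := ⟨q - 1, by have := c.pos; omega⟩
  have hterm : ∀ d : {d : Fin (q' + 1) // d ≠ c ∧ d ≠ c'},
      ((Nat.card {f : T → Fin (q' + 1) // ((∀ x y, G.Adj x y → f x ≠ f y) ∧
        (∀ x ∈ Ns, f x ≠ c) ∧ ∀ x ∈ Nt, f x ≠ c') ∧ ∀ x, f x ≠ d.1} : ℕ) : ℤ) =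
      if c = c' then a.eval (q' : ℤ) else b.eval (q' : ℤ) := by
    rintro ⟨d, h1, h2⟩
    obtain ⟨c1, hc1⟩ := Fin.exists_succAbove_eq h1.symm
    obtain ⟨c2, hc2⟩ := Fin.exists_succAbove_eq h2.symm
    have h3 := gj_fiber G Ns Nt q' c1 c2 d
    rw [hc1, hc2] at h3
    rw [h3, H]
    have h4 : c1 = c2 ↔ c = c' := by
      constructor
      · intro h
        rw [← hc1, ← hc2, h]
      · intro h
        apply Fin.succAbove_right_injective (p := d)
        rw [hc1, hc2, h]
    simp only [h4]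
  rw [Nat.cast_sum, Finset.sum_congr rfl (fun d _ => hterm d), Finset.sum_const,
    Finset.card_univ]
  have hq : (((q' + 1 : ℕ) : ℤ) - 1) = (q' : ℤ) := by push_cast; ring
  by_cases hcc : c = c'
  · subst hcc
    rw [if_pos rfl, if_pos rfl]
    have hcard : Fintype.card {d : Fin (q' + 1) // d ≠ c ∧ d ≠ c} = q' := by
      have h1 : Fintype.card {d : Fin (q' + 1) // d ≠ c ∧ d ≠ c} =
          (Finset.univ.filter (fun d : Fin (q' + 1) => d ≠ c ∧ d ≠ c)).card :=
        Fintype.card_subtype _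
      rw [h1]
      have h2 : Finset.univ.filter (fun d : Fin (q' + 1) => d ≠ c ∧ d ≠ c) =
          Finset.univ.erase c := by
        ext d
        simp
      rw [h2, Finset.card_erase_of_mem (Finset.mem_univ _), Finset.card_univ, Fintype.card_fin]
      rfl
    rw [hcard, eval_mul, eval_sub, eval_X, eval_one, eval_comp, eval_sub, eval_X, eval_one, hq,
      nsmul_eq_mul]
  · rw [if_neg hcc, if_neg hcc]
    have hcard : Fintype.card {d : Fin (q' + 1) // d ≠ c ∧ d ≠ c'} + 1 = q' := by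
      have h1 : Fintype.card {d : Fin (q' + 1) // d ≠ c ∧ d ≠ c'} =
          (Finset.univ.filter (fun d : Fin (q' + 1) => d ≠ c ∧ d ≠ c')).card :=
        Fintype.card_subtype _
      rw [h1]
      have h2 : Finset.univ.filter (fun d : Fin (q' + 1) => d ≠ c ∧ d ≠ c') =
          (Finset.univ.erase c).erase c' := by
        ext d
        simp only [Finset.mem_filter, Finset.mem_univ, true_and, Finset.mem_erase, and_true]
        tauto
      have h3 : c' ∈ Finset.univ.erase c := by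
        rw [Finset.mem_erase]
        exact ⟨fun h => hcc h.symm, Finset.mem_univ _⟩
      have h4 := Finset.card_erase_add_one h3
      rw [h2, h4, Finset.card_erase_of_mem (Finset.mem_univ _), Finset.card_univ,
        Fintype.card_fin]
      rfl
    have h2 : (((q' + 1 : ℕ) : ℤ) - 2) =
        ((Fintype.card {d : Fin (q' + 1) // d ≠ c ∧ d ≠ c'} : ℕ) : ℤ) := by
      push_cast
      have : ((Fintype.card {d : Fin (q' + 1) // d ≠ c ∧ d ≠ c'} : ℕ) : ℤ) + 1 = (q' : ℤ) := by
        exact_mod_cast hcard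
      linarith
    have h5 : eval ((q' + 1 : ℕ) : ℤ) (2 : ℤ[X]) = 2 := by
      exact Polynomial.eval_ofNat 2 _
    rw [eval_mul, eval_sub, eval_X, h5, eval_comp, eval_sub, eval_X, eval_one, hq, h2,
      nsmul_eq_mul]

end Pool.Agent.Helper428.AN
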