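import Pool.Agent.Helper428.AN.Defs
import Pool.Agent.Helper428.AN.P_g_join

set_option autoImplicit false

open Polynomial

namespace Pool.Agent.Helper428.AN



theorem g_joinN {a b : ℤ[X]} (h : IsGadget a b) (N : ℕ) :
    IsGadget ((∏ i ∈ Finset.range N, (X - C ((i : ℤ) + 1))) * a.comp (X - C (N : ℤ)))
      ((∏ i ∈ Finset.range N, (X - C ((i : ℤ) + 2))) * b.comp (X - C (N : ℤ))) := by
  induction N with
  | zero => simpa using h
  | succ N ih =>
    have h1 := g_join ih
    have e1 : (X - 1) * ((∏ i ∈ Finset.range N, (X - C ((i : ℤ) + 1))) *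
        a.comp (X - C (N : ℤ))).comp (X - 1) =
        (∏ i ∈ Finset.range (N + 1), (X - C ((i : ℤ) + 1))) * a.comp (X - C ((N + 1 : ℕ) : ℤ)) := by
      apply Polynomial.funext
      intro x
      rw [Finset.prod_range_succ']
      simp only [eval_mul, eval_comp, eval_prod, eval_sub, eval_X, eval_C, eval_one]
      have h2 : ∀ i : ℕ, x - 1 - ((i : ℤ) + 1) = x - (((i + 1 : ℕ) : ℤ) + 1) := by
        intro i; push_cast; ring
      simp_rw [h2]
      have h3 : x - 1 - (N : ℤ) = x - ((N + 1 : ℕ) : ℤ) := by push_cast; ring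
      rw [h3]
      push_cast
      ring
    have e2 : (X - 2) * ((∏ i ∈ Finset.range N, (X - C ((i : ℤ) + 2))) *
        b.comp (X - C (N : ℤ))).comp (X - 1) =
        (∏ i ∈ Finset.range (N + 1), (X - C ((i : ℤ) + 2))) * b.comp (X - C ((N + 1 : ℕ) : ℤ)) := by
      apply Polynomial.funext
      intro x
      rw [Finset.prod_range_succ']
      have h4 : (X - 2 : ℤ[X]) = X - C 2 := by simp
      rw [h4]
      simp only [eval_mul, eval_comp, eval_prod, eval_sub, eval_X, eval_C, eval_one]
      have h2 : ∀ i : ℕ, x - 1 - ((i : ℤ) + 2) = x - (((i + 1 : ℕ) : ℤ) + 2) := by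
        intro i; push_cast; ring
      simp_rw [h2]
      have h3 : x - 1 - (N : ℤ) = x - ((N + 1 : ℕ) : ℤ) := by push_cast; ring
      rw [h3]
      push_cast
      ring
    rw [e1, e2] at h1
    exact h1

end Pool.Agent.Helper428.AN
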