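import Pool.Agent.Helper428.AN.Defs

set_option autoImplicit false

open Polynomial

namespace Pool.Agent.Helper428.AN



/-- disjoint union -/
def g_mul_sum {T T' : Type} (G : SimpleGraph T) (G' : SimpleGraph T') : SimpleGraph (T ⊕ T') where
  Adj x y := match x, y with
    | Sum.inl x, Sum.inl y => G.Adj x y
    | Sum.inr x, Sum.inr y => G'.Adj x y
    | Sum.inl _, Sum.inr _ => False
    | Sum.inr _, Sum.inl _ => False
  symm := ⟨by
    intro x y h
    rcases x with x | x <;> rcases y with y | y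
    · exact G.symm.symm _ _ h
    · exact h
    · exact h
    · exact G'.symm.symm _ _ h⟩
  loopless := ⟨by
    intro x h
    rcases x with x | x
    · exact G.loopless.irrefl x h
    · exact G'.loopless.irrefl x h⟩

theorem g_mul {a b a' b' : ℤ[X]} (h : IsGadget a b) (h' : IsGadget a' b') :
    IsGadget (a * a') (b * b') := by
  obtain ⟨T, hT, G, Ns, Nt, hG⟩ := h
  obtain ⟨T', hT', G', Ns', Nt', hG'⟩ := h'
  refine ⟨T ⊕ T', inferInstance, g_mul_sum G G', {z | (∃ x ∈ Ns, z = Sum.inl x) ∨ ∃ x ∈ Ns', z = Sum.inr x},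
    {z | (∃ x ∈ Nt, z = Sum.inl x) ∨ ∃ x ∈ Nt', z = Sum.inr x}, ?_⟩
  intro q c c'
  have e : {f : T ⊕ T' → Fin q // (∀ x y, (g_mul_sum G G').Adj x y → f x ≠ f y) ∧
      (∀ x ∈ ({z | (∃ x ∈ Ns, z = Sum.inl x) ∨ ∃ x ∈ Ns', z = Sum.inr x} : Set (T ⊕ T')), f x ≠ c) ∧
      ∀ x ∈ ({z | (∃ x ∈ Nt, z = Sum.inl x) ∨ ∃ x ∈ Nt', z = Sum.inr x} : Set (T ⊕ T')), f x ≠ c'} ≃
      {f : T → Fin q // (∀ x y, G.Adj x y → f x ≠ f y) ∧ (∀ x ∈ Ns, f x ≠ c) ∧
        ∀ x ∈ Nt, f x ≠ c'} ×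
      {f : T' → Fin q // (∀ x y, G'.Adj x y → f x ≠ f y) ∧ (∀ x ∈ Ns', f x ≠ c) ∧
        ∀ x ∈ Nt', f x ≠ c'} := by
    refine
      { toFun := fun f => (⟨fun x => f.1 (Sum.inl x), ?_, ?_, ?_⟩, ⟨fun x => f.1 (Sum.inr x), ?_, ?_, ?_⟩)
        invFun := fun p => ⟨Sum.elim p.1.1 p.2.1, ?_, ?_, ?_⟩
        left_inv := ?_
        right_inv := ?_ }
    · intro x y hxy
      exact f.2.1 (Sum.inl x) (Sum.inl y) hxy
    · intro x hx
      exact f.2.2.1 _ (Or.inl ⟨x, hx, rfl⟩)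
    · intro x hx
      exact f.2.2.2 _ (Or.inl ⟨x, hx, rfl⟩)
    · intro x y hxy
      exact f.2.1 (Sum.inr x) (Sum.inr y) hxy
    · intro x hx
      exact f.2.2.1 _ (Or.inr ⟨x, hx, rfl⟩)
    · intro x hx
      exact f.2.2.2 _ (Or.inr ⟨x, hx, rfl⟩)
    · intro x y hxy
      rcases x with x | x <;> rcases y with y | y
      · exact p.1.2.1 x y hxy
      · exact hxy.elim
      · exact hxy.elim
      · exact p.2.2.1 x y hxy
    · rintro z (⟨x, hx, rfl⟩ | ⟨x, hx, rfl⟩)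
      · exact p.1.2.2.1 x hx
      · exact p.2.2.2.1 x hx
    · rintro z (⟨x, hx, rfl⟩ | ⟨x, hx, rfl⟩)
      · exact p.1.2.2.2 x hx
      · exact p.2.2.2.2 x hx
    · intro f
      apply Subtype.ext
      funext z
      rcases z with z | z <;> rfl
    · intro p
      rfl
  rw [Nat.card_congr e, Nat.card_prod, Nat.cast_mul, hG q c c', hG' q c c']
  split_ifs with hc
  · rw [Polynomial.eval_mul]
  · rw [Polynomial.eval_mul]

end Pool.Agent.Helper428.AN
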