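import Pool.Agent.Helper428.AN.Defs

set_option autoImplicit false

open Polynomial

namespace Pool.Agent.Helper428.AN



theorem g_one : IsGadget 1 1 := by
  refine ⟨Empty, inferInstance, ⊥, ∅, ∅, ?_⟩
  intro q c c'
  have h : Nat.card {f : Empty → Fin q // (∀ x y, (⊥ : SimpleGraph Empty).Adj x y → f x ≠ f y) ∧
      (∀ x ∈ (∅ : Set Empty), f x ≠ c) ∧ ∀ x ∈ (∅ : Set Empty), f x ≠ c'} = 1 := by
    rw [Nat.card_eq_one_iff_exists]
    refine ⟨⟨fun x => x.elim, fun x => x.elim, fun x => x.elim, fun x => x.elim⟩, ?_⟩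
    intro g
    apply Subtype.ext
    funext x
    exact x.elim
  rw [h]
  simp

end Pool.Agent.Helper428.AN
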