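import Pool.Agent.Helper428.AN.Defs

set_option autoImplicit false

open Polynomial

namespace Pool.Agent.Helper428.AN



theorem g_path2 : IsGadget (X - 1) (X - 2) := by
  refine ⟨Unit, inferInstance, ⊥, Set.univ, Set.univ, ?_⟩
  intro q c c'
  have e : {f : Unit → Fin q // (∀ x y, (⊥ : SimpleGraph Unit).Adj x y → f x ≠ f y) ∧
      (∀ x ∈ (Set.univ : Set Unit), f x ≠ c) ∧ ∀ x ∈ (Set.univ : Set Unit), f x ≠ c'} ≃
      {x : Fin q // x ∈ (Finset.univ.erase c).erase c'} :=
    { toFun := fun f => ⟨f.1 (), by
        simp only [Finset.mem_erase, Finset.mem_univ, and_true]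
        exact ⟨f.2.2.2 () trivial, f.2.2.1 () trivial⟩⟩
      invFun := fun x => ⟨fun _ => x.1, by
        have h := x.2
        simp only [Finset.mem_erase, Finset.mem_univ, and_true] at h
        exact ⟨fun _ _ h => (h : False).elim, fun _ _ => h.2, fun _ _ => h.1⟩⟩
      left_inv := fun f => by
        apply Subtype.ext
        funext u
        rfl
      right_inv := fun x => rfl }
  rw [Nat.card_congr e, Nat.card_eq_fintype_card, Fintype.card_coe]
  have hq : 1 ≤ q := c.pos
  split_ifs with h
  · subst h
    rw [Finset.erase_idem, Finset.card_erase_of_mem (Finset.mem_univ _), Finset.card_univ, Fintype.card_fin]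
    simp only [eval_sub, eval_X, eval_one]
    push_cast [hq]
    ring
  · have hq2 : 2 ≤ q := by
      by_contra hlt
      have : q = 1 := by omega
      subst this
      exact h (Subsingleton.elim _ _)
    rw [Finset.card_erase_of_mem (Finset.mem_erase.2 ⟨Ne.symm h, Finset.mem_univ _⟩),
      Finset.card_erase_of_mem (Finset.mem_univ _), Finset.card_univ, Fintype.card_fin]
    have e2 : ((2 : ℤ[X]).eval (q : ℤ)) = 2 := by
      have : (2 : ℤ[X]) = C 2 := rfl
      rw [this, eval_C]
    simp only [eval_sub, eval_X, e2]
    have : q - 1 - 1 = q - 2 := by omega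
    rw [this]
    push_cast [hq2]
    ring

end Pool.Agent.Helper428.AN
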