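import Pool.Agent.Helper428.AN.Defs

set_option autoImplicit false

open Polynomial

namespace Pool.Agent.Helper428.AN



/-- the new graph: the old second terminal becomes a vertex -/
def h170_G {T : Type} (G : SimpleGraph T) (Nt : Set T) : SimpleGraph (Option T) where
  Adj u v := (∃ x y, u = some x ∧ v = some y ∧ G.Adj x y) ∨ (∃ x ∈ Nt, u = none ∧ v = some x) ∨
    (∃ x ∈ Nt, u = some x ∧ v = none)
  symm := ⟨by
    rintro u v (⟨x, y, rfl, rfl, h⟩ | ⟨x, hx, rfl, rfl⟩ | ⟨x, hx, rfl, rfl⟩)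
    · exact Or.inl ⟨y, x, rfl, rfl, h.symm⟩
    · exact Or.inr (Or.inr ⟨x, hx, rfl, rfl⟩)
    · exact Or.inr (Or.inl ⟨x, hx, rfl, rfl⟩)⟩
  loopless := ⟨by
    rintro u (⟨x, y, rfl, h1, h⟩ | ⟨x, hx, rfl, h1⟩ | ⟨x, hx, rfl, h1⟩)
    · rw [Option.some.injEq] at h1
      subst h1
      exact G.loopless.irrefl _ h
    · exact Option.some_ne_none _ h1.symm
    · exact Option.some_ne_none _ h1⟩

theorem h170_sum {q : ℕ} (c c' : Fin q) (A B : ℤ) :
    ∑ d : {d : Fin q // d ≠ c'}, (if c = d.1 then A else B) =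
      if c = c' then ((q : ℤ) - 1) * B else A + ((q : ℤ) - 2) * B := by
  classical
  have h1 : ∑ d : {d : Fin q // d ≠ c'}, (if c = d.1 then A else B) =
      ∑ d ∈ Finset.univ.filter (fun d : Fin q => d ≠ c'), (if c = d then A else B) := by
    symm
    apply Finset.sum_subtype
    intro x
    simp
  have h2 : ∑ d ∈ Finset.univ.filter (fun d : Fin q => d ≠ c'), (if c = d then A else B) +
      (if c = c' then A else B) = ∑ d : Fin q, (if c = d then A else B) := by
    rw [Finset.filter_ne', Finset.sum_erase_add _ _ (Finset.mem_univ c')]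
  have h3 : ∑ d : Fin q, (if c = d then A else B) = (q : ℤ) * B + (A - B) := by
    have h4 : ∀ d : Fin q, (if c = d then A else B) = B + (if c = d then (A - B) else 0) := by
      intro d
      split_ifs <;> ring
    simp_rw [h4]
    rw [Finset.sum_add_distrib, Finset.sum_ite_eq]
    simp
  rw [h1]
  rw [h3] at h2
  split_ifs at h2 ⊢
  · linarith
  · linarith

theorem g_ser {a b : ℤ[X]} (h : IsGadget a b) :
    IsGadget ((X - 1) * b) (a + (X - 2) * b) := by
  classical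
  obtain ⟨T, hT, G, Ns, Nt, hG⟩ := h
  refine ⟨Option T, inferInstance, h170_G G Nt, some '' Ns, {none}, ?_⟩
  intro q c c'
  have e : {f : Option T → Fin q // (∀ x y, (h170_G G Nt).Adj x y → f x ≠ f y) ∧
      (∀ x ∈ some '' Ns, f x ≠ c) ∧ ∀ x ∈ ({none} : Set (Option T)), f x ≠ c'} ≃
      (Σ d : {d : Fin q // d ≠ c'}, {f : T → Fin q // (∀ x y, G.Adj x y → f x ≠ f y) ∧
        (∀ x ∈ Ns, f x ≠ c) ∧ ∀ x ∈ Nt, f x ≠ d.1}) :=
    { toFun := fun f => ⟨⟨f.1 none, f.2.2.2 none rfl⟩, ⟨fun x => f.1 (some x),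
        fun x y hxy => f.2.1 _ _ (Or.inl ⟨x, y, rfl, rfl, hxy⟩),
        fun x hx => f.2.2.1 _ ⟨x, hx, rfl⟩,
        fun x hx => f.2.1 _ _ (Or.inr (Or.inr ⟨x, hx, rfl, rfl⟩))⟩⟩
      invFun := fun g => ⟨fun o => o.elim g.1.1 g.2.1, by
        obtain ⟨⟨d, hd⟩, ⟨f, hf1, hf2, hf3⟩⟩ := g
        refine ⟨?_, ?_, ?_⟩
        · rintro u v (⟨x, y, rfl, rfl, h⟩ | ⟨x, hx, rfl, rfl⟩ | ⟨x, hx, rfl, rfl⟩)
          · exact hf1 x y h
          · exact (hf3 x hx).symm
          · exact hf3 x hx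
        · rintro _ ⟨x, hx, rfl⟩
          exact hf2 x hx
        · rintro _ rfl
          exact hd⟩
      left_inv := by
        rintro ⟨f, hf⟩
        apply Subtype.ext
        funext o
        cases o <;> rfl
      right_inv := by
        rintro ⟨⟨d, hd⟩, ⟨f, hf⟩⟩
        rfl }
  rw [Nat.card_congr e, Nat.card_sigma, Nat.cast_sum]
  simp_rw [fun d : {d : Fin q // d ≠ c'} => hG q c d.1]
  rw [h170_sum]
  simp only [eval_mul, eval_sub, eval_add, eval_X, eval_one, eval_ofNat]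

end Pool.Agent.Helper428.AN
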