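import Pool.Agent.Helper428.AN.Defs
import Pool.Agent.Helper428.AN.P_g_path2
import Pool.Agent.Helper428.AN.P_g_ser

set_option autoImplicit false

open Polynomial

namespace Pool.Agent.Helper428.AN



theorem g_path (s : ℕ) (hs : 2 ≤ s) : ∃ a b : ℤ[X], IsGadget a b ∧
    (∀ z : ℂ, z * aeval z a = (-1) ^ s * ((1 - z) ^ s - (1 - z))) ∧
    ∀ z : ℂ, z * aeval z b = (-1) ^ s * ((1 - z) ^ s - 1) := by
  induction s, hs using Nat.le_induction with
  | base =>
    refine ⟨X - 1, X - 2, g_path2, fun z => ?_, fun z => ?_⟩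
    · simp only [map_sub, aeval_X, map_one]
      ring
    · simp only [map_sub, aeval_X, map_ofNat]
      ring
  | succ s hs ih =>
    obtain ⟨a, b, hab, ha, hb⟩ := ih
    refine ⟨(X - 1) * b, a + (X - 2) * b, g_ser hab, fun z => ?_, fun z => ?_⟩
    · simp only [map_mul, map_sub, aeval_X, map_one]
      have := hb z
      rw [pow_succ (-1 : ℂ), pow_succ (1 - z)]
      linear_combination (z - 1) * this
    · simp only [map_add, map_mul, map_sub, aeval_X, map_ofNat]
      have h1 := ha z
      have h2 := hb z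
      rw [pow_succ (-1 : ℂ), pow_succ (1 - z)]
      linear_combination h1 + (z - 2) * h2

end Pool.Agent.Helper428.AN
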