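import Pool.Agent.Helper428.AN.Defs
import Pool.Agent.Helper428.AN.P_exists_rel

set_option autoImplicit false

open Polynomial

namespace Pool.Agent.Helper428.AN



theorem rot (w u : ℂ) (hw : w.im ≠ 0) : ∃ s : ℕ, 2 ≤ s ∧ 0 ≤ (w ^ s * u).re := by
  obtain ⟨n, c₁, c₂, hn, h1, h2, h⟩ := exists_rel w (Or.inl hw)
  by_contra hcon
  push Not at hcon
  have e : w ^ 2 * u + (c₁ : ℂ) * (w ^ (n + 2) * u) + (c₂ : ℂ) * (w ^ (n + 3) * u) = 0 := by
    have : w ^ 2 * u + (c₁ : ℂ) * (w ^ (n + 2) * u) + (c₂ : ℂ) * (w ^ (n + 3) * u) =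
        (1 + c₁ * w ^ n + c₂ * w ^ (n + 1)) * (w ^ 2 * u) := by ring
    rw [this, h, zero_mul]
  have e2 := congrArg Complex.re e
  rw [Complex.add_re, Complex.add_re, Complex.re_ofReal_mul, Complex.re_ofReal_mul,
    Complex.zero_re] at e2
  have a1 := hcon 2 le_rfl
  have a2 := hcon (n + 2) (by omega)
  have a3 := hcon (n + 3) (by omega)
  have b2 : c₁ * (w ^ (n + 2) * u).re ≤ 0 := mul_nonpos_of_nonneg_of_nonpos h1 a2.le
  have b3 : c₂ * (w ^ (n + 3) * u).re ≤ 0 := mul_nonpos_of_nonneg_of_nonpos h2 a3.le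
  linarith

end Pool.Agent.Helper428.AN
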