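import Pool.Agent.Helper428.AN.Defs
import Pool.Agent.Helper428.AN.P_g_one
import Pool.Agent.Helper428.AN.P_g_mul
import Pool.Agent.Helper428.AN.P_g_joinN
import Pool.Agent.Helper428.AN.P_g_path
import Pool.Agent.Helper428.AN.P_rot

set_option autoImplicit false

open Polynomial

namespace Pool.Agent.Helper428.AN



theorem bnr_pow {a b : ℤ[X]} (h : IsGadget a b) (m : ℕ) : IsGadget (a ^ m) (b ^ m) := by
  induction m with
  | zero => simpa using g_one
  | succ m ih =>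
    rw [pow_succ, pow_succ]
    exact g_mul ih h

theorem big_nonreal (z : ℂ) (hz : z.im ≠ 0) :
    ∃ a b : ℤ[X], IsGadget a b ∧ aeval z b ≠ 0 ∧ ‖aeval z b‖ < ‖aeval z a‖ := by
  obtain ⟨N, hN⟩ := exists_nat_gt (‖z‖ + 1)
  set w : ℂ := (N : ℂ) + 1 - z with hw
  have hwim : w.im ≠ 0 := by
    rw [hw]
    simpa using hz
  have hw1 : 1 < ‖w‖ := by
    have h1 : (N : ℝ) + 1 - ‖z‖ ≤ ‖w‖ := by
      have h2 := norm_sub_norm_le ((N : ℂ) + 1) z
      have h3 : ‖(N : ℂ) + 1‖ = (N : ℝ) + 1 := by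
        have : ((N : ℂ) + 1) = (((N : ℝ) + 1 : ℝ) : ℂ) := by push_cast; rfl
        rw [this, Complex.norm_real, Real.norm_eq_abs, abs_of_nonneg (by positivity)]
      rw [h3] at h2
      exact h2
    linarith
  obtain ⟨s, hs, hre⟩ := rot w (1 - (starRingEnd ℂ) w) hwim
  obtain ⟨a, b, hg, ha, hb⟩ := g_path s hs
  set z' : ℂ := z - N with hz'
  have hzw : 1 - z' = w := by rw [hz', hw]; ring
  have hz'0 : z' ≠ 0 := by
    intro h
    apply hz
    have := congrArg Complex.im h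
    rw [hz'] at this
    simpa using this
  have ha' := ha z'
  have hb' := hb z'
  rw [hzw] at ha' hb'
  have hlt : ‖w ^ s - 1‖ < ‖w ^ s - w‖ := by
    have h1 : ‖w ^ s - w‖ ^ 2 - ‖w ^ s - 1‖ ^ 2
        = ‖w‖ ^ 2 - 1 + 2 * (w ^ s * (1 - (starRingEnd ℂ) w)).re := by
      rw [Complex.sq_norm, Complex.sq_norm, Complex.sq_norm, Complex.normSq_apply,
        Complex.normSq_apply, Complex.normSq_apply]
      simp only [Complex.sub_re, Complex.sub_im, Complex.mul_re, Complex.one_re, Complex.one_im,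
        Complex.conj_re, Complex.conj_im]
      ring
    have h2 : ‖w ^ s - 1‖ ^ 2 < ‖w ^ s - w‖ ^ 2 := by nlinarith
    exact lt_of_pow_lt_pow_left₀ 2 (norm_nonneg _) h2
  have hws : w ^ s ≠ 1 := by
    intro h
    have h1 : ‖w‖ ^ s = 1 := by rw [← norm_pow, h, norm_one]
    have h2 : 1 < ‖w‖ ^ s := one_lt_pow₀ hw1 (by omega)
    linarith
  have hna : ‖z'‖ * ‖aeval z' a‖ = ‖w ^ s - w‖ := by
    rw [← norm_mul, ha', norm_mul, norm_pow, norm_neg, norm_one, one_pow, one_mul]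
  have hnb : ‖z'‖ * ‖aeval z' b‖ = ‖w ^ s - 1‖ := by
    rw [← norm_mul, hb', norm_mul, norm_pow, norm_neg, norm_one, one_pow, one_mul]
  have hz'p : 0 < ‖z'‖ := norm_pos_iff.mpr hz'0
  have hb0 : 0 < ‖aeval z' b‖ := by
    have h1 : 0 < ‖w ^ s - 1‖ := norm_pos_iff.mpr (sub_ne_zero.mpr hws)
    rw [← hnb] at h1
    exact pos_of_mul_pos_right h1 hz'p.le
  have hab : ‖aeval z' b‖ < ‖aeval z' a‖ := by
    rw [← hna, ← hnb] at hlt
    exact lt_of_mul_lt_mul_left hlt hz'p.le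
  have hP : ∀ c : ℤ, z - ((c : ℤ) : ℂ) ≠ 0 := by
    intro c h
    apply hz
    have := congrArg Complex.im h
    simpa using this
  set P1 : ℂ := ∏ i ∈ Finset.range N, (z - (((i : ℤ) + 1 : ℤ) : ℂ)) with hP1
  set P2 : ℂ := ∏ i ∈ Finset.range N, (z - (((i : ℤ) + 2 : ℤ) : ℂ)) with hP2
  have hP10 : 0 < ‖P1‖ := norm_pos_iff.mpr (Finset.prod_ne_zero_iff.mpr fun i _ => hP _)
  have hP20 : P2 ≠ 0 := Finset.prod_ne_zero_iff.mpr fun i _ => hP _
  obtain ⟨m, hm⟩ := pow_unbounded_of_one_lt (‖P2‖ / ‖P1‖) ((one_lt_div hb0).mpr hab)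
  have hG := g_joinN (bnr_pow hg m) N
  have hcomp : ∀ c : ℤ[X], aeval z (c.comp (X - C (N : ℤ))) = aeval z' c := by
    intro c
    have h0 : aeval z (X - C (N : ℤ)) = z' := by simp [hz']
    rw [aeval_comp, h0]
  have e1 : aeval z ((∏ i ∈ Finset.range N, (X - C ((i : ℤ) + 1))) * (a ^ m).comp (X - C (N : ℤ)))
      = P1 * (aeval z' a) ^ m := by
    rw [map_mul, hcomp, map_pow, map_prod, hP1]
    congr 1
    refine Finset.prod_congr rfl fun i _ => ?_
    rw [map_sub, aeval_X, aeval_C, algebraMap_int_eq, eq_intCast]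
  have e2 : aeval z ((∏ i ∈ Finset.range N, (X - C ((i : ℤ) + 2))) * (b ^ m).comp (X - C (N : ℤ)))
      = P2 * (aeval z' b) ^ m := by
    rw [map_mul, hcomp, map_pow, map_prod, hP2]
    congr 1
    refine Finset.prod_congr rfl fun i _ => ?_
    rw [map_sub, aeval_X, aeval_C, algebraMap_int_eq, eq_intCast]
  refine ⟨_, _, hG, ?_, ?_⟩
  · rw [e2]
    exact mul_ne_zero hP20 (pow_ne_zero _ (norm_pos_iff.mp hb0))
  · rw [e1, e2, norm_mul, norm_mul, norm_pow, norm_pow]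
    rw [div_pow, div_lt_div_iff₀ hP10 (by positivity)] at hm
    linarith

end Pool.Agent.Helper428.AN

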