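import Pool.Agent.Helper428.AN.Defs

set_option autoImplicit false

open Polynomial

namespace Pool.Agent.Helper428.AN



private theorem j22862_qsmul {K : Type} [AddCommGroup K] [Module ℚ K] (M : AddSubmonoid K)
    (hM : ∀ (x : K) (n : ℕ), 0 < n → n • x ∈ M → x ∈ M) (q : ℚ) (hq : 0 ≤ q) (x : K)
    (hx : x ∈ M) : q • x ∈ M := by
  apply hM _ q.den q.den_pos
  have h1 : q.den • (q • x) = q.num.toNat • x := by
    rw [← Nat.cast_smul_eq_nsmul ℚ q.den, smul_smul, ← Nat.cast_smul_eq_nsmul ℚ q.num.toNat]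
    congr 1
    have h2 : ((q.num.toNat : ℕ) : ℤ) = q.num := Int.toNat_of_nonneg (Rat.num_nonneg.2 hq)
    have h3 : ((q.num.toNat : ℕ) : ℚ) = ((q.num : ℤ) : ℚ) := by
      rw [← Int.cast_natCast, h2]
    rw [h3, Rat.den_mul_eq_num]
  rw [h1]
  exact M.nsmul_mem hx _

/-- adjoining one element to a saturated submonoid -/
private def j22862_adj {K : Type} [AddCommGroup K] (M : AddSubmonoid K) (x : K) :
    AddSubmonoid K where
  carrier := {z | ∃ n m : ℕ, 0 < n ∧ n • z - m • x ∈ M}
  zero_mem' := ⟨1, 0, Nat.one_pos, by simp⟩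
  add_mem' := by
    rintro z1 z2 ⟨n1, m1, h1, h1'⟩ ⟨n2, m2, h2, h2'⟩
    refine ⟨n1 * n2, n2 * m1 + n1 * m2, Nat.mul_pos h1 h2, ?_⟩
    have e : (n1 * n2) • (z1 + z2) - (n2 * m1 + n1 * m2) • x =
        n2 • (n1 • z1 - m1 • x) + n1 • (n2 • z2 - m2 • x) := by
      simp only [smul_sub, smul_add, add_smul, mul_smul, smul_comm n1 n2]
      abel
    rw [e]
    exact M.add_mem (M.nsmul_mem h1' _) (M.nsmul_mem h2' _)

private theorem j22862_top {K : Type} [AddCommGroup K] [Module ℚ K] [Module.Finite ℚ K]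
    (c : Set (AddSubmonoid K)) (hc : IsChain (· ≤ ·) c) (hcne : c.Nonempty)
    (hs : ∀ M ∈ c, ∀ (x : K) (n : ℕ), 0 < n → n • x ∈ M → x ∈ M)
    (hall : ∀ x : K, ∃ M ∈ c, x ∈ M) : ∃ M ∈ c, M = ⊤ := by
  classical
  have hfin : ∀ F : Finset K, ∃ M ∈ c, ∀ x ∈ F, x ∈ M := by
    intro F
    induction F using Finset.induction_on with
    | empty =>
      obtain ⟨M, hM⟩ := hcne
      exact ⟨M, hM, by simp⟩
    | insert a F ha ih =>
      obtain ⟨M0, hM0, h0⟩ := ih
      obtain ⟨M1, hM1, h1⟩ := hall a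
      rcases hc.total hM0 hM1 with h | h
      · refine ⟨M1, hM1, fun x hx => ?_⟩
        rcases Finset.mem_insert.1 hx with h2 | h2
        · rw [h2]
          exact h1
        · exact h (h0 x h2)
      · refine ⟨M0, hM0, fun x hx => ?_⟩
        rcases Finset.mem_insert.1 hx with h2 | h2
        · rw [h2]
          exact h h1
        · exact h0 x h2
  obtain ⟨s, hs'⟩ := (Module.Finite.fg_top : (⊤ : Submodule ℚ K).FG)
  obtain ⟨M, hM, hMF⟩ := hfin (s ∪ s.image (fun x => -x))
  refine ⟨M, hM, ?_⟩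
  rw [eq_top_iff]
  intro x hxt
  clear hxt
  have hx : x ∈ Submodule.span ℚ (s : Set K) := by
    rw [hs']
    trivial
  have key : x ∈ M ∧ -x ∈ M := by
    induction hx using Submodule.span_induction with
    | mem x hx =>
      have hx' : x ∈ s := hx
      exact ⟨hMF x (Finset.mem_union_left _ hx'),
        hMF (-x) (Finset.mem_union_right _ (Finset.mem_image_of_mem _ hx'))⟩
    | zero => exact ⟨M.zero_mem, by rw [neg_zero]; exact M.zero_mem⟩
    | add a b _ _ iha ihb =>
      refine ⟨M.add_mem iha.1 ihb.1, ?_⟩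
      rw [neg_add]
      exact M.add_mem iha.2 ihb.2
    | smul q a _ iha =>
      rcases le_total 0 q with hq | hq
      · refine ⟨j22862_qsmul M (hs M hM) q hq a iha.1, ?_⟩
        rw [← smul_neg]
        exact j22862_qsmul M (hs M hM) q hq _ iha.2
      · refine ⟨?_, ?_⟩
        · rw [← neg_smul_neg]
          exact j22862_qsmul M (hs M hM) (-q) (by linarith) _ iha.2
        · rw [← neg_smul]
          exact j22862_qsmul M (hs M hM) (-q) (by linarith) a iha.1
  exact key.1

theorem cone_sep {K : Type} [AddCommGroup K] [Module ℚ K] [Module.Finite ℚ K]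
    (C : AddSubmonoid K) (hC : ∀ (x : K) (n : ℕ), 0 < n → n • x ∈ C → x ∈ C)
    (hne : ∃ x, x ∉ C) : ∃ ℓ : K →ₗ[ℚ] ℝ, ℓ ≠ 0 ∧ ∀ x ∈ C, ℓ x ≤ 0 := by
  classical
  have hCtop : C ≠ ⊤ := by
    rintro rfl
    obtain ⟨x, hx⟩ := hne
    exact hx trivial
  obtain ⟨M, hCM, hMax⟩ := zorn_le_nonempty₀
    {M : AddSubmonoid K | (∀ (x : K) (n : ℕ), 0 < n → n • x ∈ M → x ∈ M) ∧ M ≠ ⊤} (by
      intro c hcs hc y hy
      have hdir : DirectedOn (· ≤ ·) c := hc.directedOn
      have hmem : ∀ x, x ∈ sSup c ↔ ∃ M ∈ c, x ∈ M := fun x =>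
        AddSubmonoid.mem_sSup_of_directedOn ⟨y, hy⟩ hdir
      refine ⟨sSup c, ⟨?_, ?_⟩, fun z hz => le_sSup hz⟩
      · intro x n hn hx
        rw [hmem] at hx ⊢
        obtain ⟨M, hM, hxM⟩ := hx
        exact ⟨M, hM, (hcs hM).1 x n hn hxM⟩
      · intro htop
        obtain ⟨M, hM, hMt⟩ := j22862_top c hc ⟨y, hy⟩ (fun M hM => (hcs hM).1) (fun x => by
          rw [← hmem x, htop]
          trivial)
        exact (hcs hM).2 hMt) C ⟨hC, hCtop⟩
  obtain ⟨⟨hsat, hMtop⟩, hmax⟩ := hMax
  -- adjoining an element outside gives everything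
  have hadj : ∀ x, x ∉ M → ∀ z, ∃ n m : ℕ, 0 < n ∧ n • z - m • x ∈ M := by
    intro x hx
    by_contra hcon
    push Not at hcon
    obtain ⟨z, hz⟩ := hcon
    have h1 : j22862_adj M x ∈
        {M : AddSubmonoid K | (∀ (x : K) (n : ℕ), 0 < n → n • x ∈ M → x ∈ M) ∧ M ≠ ⊤} := by
      refine ⟨?_, ?_⟩
      · rintro y k hk ⟨n, m, hn, hnm⟩
        refine ⟨n * k, m, Nat.mul_pos hn hk, ?_⟩
        rw [mul_smul]
        exact hnm
      · intro htop
        have h2 : z ∈ j22862_adj M x := by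
          rw [htop]
          trivial
        obtain ⟨n, m, hn, hnm⟩ := h2
        exact hz n m hn hnm
    have h2 : M ≤ j22862_adj M x := by
      intro y hy
      exact ⟨1, 0, Nat.one_pos, by simpa using hy⟩
    have h3 := hmax h1 h2
    apply hx
    apply h3
    exact ⟨1, 1, Nat.one_pos, by simp⟩
  have htot : ∀ x, x ∈ M ∨ -x ∈ M := by
    intro x
    by_contra hcon
    push Not at hcon
    obtain ⟨hx1, hx2⟩ := hcon
    apply hMtop
    rw [eq_top_iff]
    intro z _
    obtain ⟨n, m, hn, h1⟩ := hadj x hx1 z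
    obtain ⟨n', m', hn', h2⟩ := hadj (-x) hx2 z
    by_cases hm : m = 0
    · rw [hm, zero_smul, sub_zero] at h1
      exact hsat z n hn h1
    · have hm' : 0 < m := Nat.pos_of_ne_zero hm
      apply hsat z (m' * n + m * n') (by positivity)
      have e : (m' * n + m * n') • z = m' • (n • z - m • x) + m • (n' • z - m' • (-x)) := by
        simp only [smul_sub, smul_neg, add_smul, mul_smul, smul_comm m m' x]
        abel
      rw [e]
      exact M.add_mem (M.nsmul_mem h1 _) (M.nsmul_mem h2 _)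
  obtain ⟨z0, hz0⟩ : ∃ z, z ∉ M := by
    by_contra hcon
    push Not at hcon
    exact hMtop (eq_top_iff.2 fun z _ => hcon z)
  obtain ⟨e, he⟩ : ∃ e, e = -z0 := ⟨_, rfl⟩
  have heM : e ∈ M := by
    rw [he]
    exact (htot z0).resolve_left hz0
  have heN : -e ∉ M := by
    rw [he, neg_neg]
    exact hz0
  have hq := j22862_qsmul M hsat
  have hunit : ∀ x, ∃ q : ℚ, q • e - x ∈ M := by
    intro x
    obtain ⟨n, m, hn, h1⟩ := hadj (-e) heN (-x)
    have hn' : (0 : ℚ) < n := by exact_mod_cast hn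
    refine ⟨(m : ℚ) / n, ?_⟩
    have h2 := hq (1 / (n : ℚ)) (by positivity) _ h1
    have e1 : (1 / (n : ℚ)) • (n • (-x) - m • (-e)) = ((m : ℚ) / n) • e - x := by
      rw [← Nat.cast_smul_eq_nsmul ℚ n, ← Nat.cast_smul_eq_nsmul ℚ m, smul_sub, smul_smul,
        smul_smul, smul_neg, smul_neg, one_div, inv_mul_cancel₀ hn'.ne', one_smul,
        div_eq_inv_mul]
      abel
    rw [e1] at h2
    exact h2
  have hsign : ∀ t : ℚ, t • e ∈ M → 0 ≤ t := by
    intro t ht
    by_contra hcon
    push Not at hcon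
    apply heN
    have h1 := hq (-t⁻¹) (by
      have := inv_lt_zero.2 hcon
      linarith) _ ht
    rw [smul_smul, neg_mul, inv_mul_cancel₀ hcon.ne, neg_smul, one_smul] at h1
    exact h1
  let Sx : K → Set ℝ := fun x => {r | ∃ t : ℚ, (t : ℝ) = r ∧ t • e - x ∈ M}
  have hSne : ∀ x, (Sx x).Nonempty := by
    intro x
    obtain ⟨q, hq'⟩ := hunit x
    exact ⟨(q : ℝ), q, rfl, hq'⟩
  have hSbdd : ∀ x, BddBelow (Sx x) := by
    intro x
    obtain ⟨q, hq'⟩ := hunit (-x)
    refine ⟨-(q : ℝ), ?_⟩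
    rintro r ⟨t, rfl, ht⟩
    have h1 := M.add_mem ht hq'
    have e1 : t • e - x + (q • e - -x) = (t + q) • e := by
      rw [add_smul]
      abel
    rw [e1] at h1
    have h2 := hsign _ h1
    have h3 : (0 : ℝ) ≤ (t : ℝ) + (q : ℝ) := by exact_mod_cast h2
    linarith
  let ρ : K → ℝ := fun x => sInf (Sx x)
  have hρle : ∀ x (t : ℚ), t • e - x ∈ M → ρ x ≤ (t : ℝ) := fun x t ht =>
    csInf_le (hSbdd x) ⟨t, rfl, ht⟩
  have hρge : ∀ x (b : ℝ), (∀ t : ℚ, t • e - x ∈ M → b ≤ (t : ℝ)) → b ≤ ρ x := by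
    intro x b hb
    refine le_csInf (hSne x) ?_
    rintro r ⟨t, rfl, ht⟩
    exact hb t ht
  have hsub : ∀ x y, ρ (x + y) ≤ ρ x + ρ y := by
    intro x y
    have h1 : ρ (x + y) - ρ x ≤ ρ y := by
      apply hρge
      intro s hs
      have h2 : ρ (x + y) - (s : ℝ) ≤ ρ x := by
        apply hρge
        intro t ht
        have h3 := M.add_mem ht hs
        have e1 : t • e - x + (s • e - y) = (t + s) • e - (x + y) := by
          rw [add_smul]
          abel
        rw [e1] at h3
        have h4 := hρle _ _ h3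
        push_cast at h4
        linarith
      linarith
    linarith
  have hρ0 : ρ 0 = 0 := by
    apply le_antisymm
    · have := hρle 0 0 (by simp)
      simpa using this
    · apply hρge
      intro t ht
      rw [sub_zero] at ht
      exact_mod_cast hsign t ht
  have hρneg : ∀ x, ρ (-x) = -ρ x := by
    intro x
    apply le_antisymm
    · by_contra hcon
      push Not at hcon
      have h1 : -ρ (-x) < ρ x := by linarith
      obtain ⟨t, ht1, ht2⟩ := exists_rat_btwn h1
      have h2 : t • e - x ∉ M := fun h => absurd (hρle x t h) (not_le.2 ht2)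
      have h3 := (htot (t • e - x)).resolve_left h2
      have e1 : -(t • e - x) = (-t) • e - -x := by
        rw [neg_smul]
        abel
      rw [e1] at h3
      have h4 := hρle _ _ h3
      push_cast at h4
      linarith
    · have h1 := hsub x (-x)
      rw [add_neg_cancel, hρ0] at h1
      linarith
  have hadd : ∀ x y, ρ (x + y) = ρ x + ρ y := by
    intro x y
    apply le_antisymm (hsub x y)
    have h1 := hsub (x + y) (-y)
    rw [add_neg_cancel_right, hρneg] at h1
    linarith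
  let g : K →+ ℝ := { toFun := ρ, map_zero' := hρ0, map_add' := hadd }
  refine ⟨-(g.toRatLinearMap), ?_, ?_⟩
  · intro h0
    have h1 := LinearMap.congr_fun h0 e
    have h2 : -ρ e = 0 := h1
    have h3 : (1 : ℝ) ≤ ρ e := by
      apply hρge
      intro t ht
      have e1 : t • e - e = (t - 1) • e := by
        rw [sub_smul, one_smul]
      rw [e1] at ht
      have h4 := hsign _ ht
      have h5 : (0 : ℝ) ≤ (t : ℝ) - 1 := by exact_mod_cast h4
      linarith
    linarith
  · intro x hx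
    have h1 : 0 ≤ ρ x := by
      apply hρge
      intro t ht
      have h2 := M.add_mem ht (hCM hx)
      rw [sub_add_cancel] at h2
      exact_mod_cast hsign t h2
    show -ρ x ≤ 0
    linarith

end Pool.Agent.Helper428.AN
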