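import Pool.Agent.Helper428.AN.Defs

set_option autoImplicit false

open Polynomial

namespace Pool.Agent.Helper428.AN



theorem eigen (K : IntermediateField ℚ ℂ) [FiniteDimensional ℚ K] (β : ℂ) (hβK : β ∈ K)
    (h2 : β ≠ 2) (ℓ : K →ₗ[ℚ] ℂ) (hℓ : ℓ ≠ 0) (Y : Submonoid K) (θ : K)
    (hθ : (θ : ℂ) = (β - 1) / (β - 2)) (hθY : θ ∈ Y) (L : ℝ) (hL : ∀ y ∈ Y, ‖ℓ y‖ ≤ L) :
    ∃ (z : ℂ) (L' : ℝ) (ℓ' : K →ₗ[ℚ] ℂ), ℓ' ≠ 0 ∧
      (∀ (x x' : K), (x' : ℂ) = β * x → ℓ' x' = z * ℓ' x) ∧ ∀ y ∈ Y, ‖ℓ' y‖ ≤ L' := by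
  -- the operator
  let T : (K →ₗ[ℚ] ℂ) →ₗ[ℂ] (K →ₗ[ℚ] ℂ) :=
    { toFun := fun f => f.comp (LinearMap.mulLeft ℚ θ)
      map_add' := fun f g => by
        ext x
        rfl
      map_smul' := fun c f => by
        ext x
        rfl }
  have hT : ∀ f x, T f x = f (θ * x) := fun f x => rfl
  let W : Submodule ℂ (K →ₗ[ℚ] ℂ) :=
    { carrier := {f | ∃ C : ℝ, ∀ y ∈ Y, ‖f y‖ ≤ C}
      add_mem' := by
        rintro f g ⟨C, hC⟩ ⟨C', hC'⟩
        refine ⟨C + C', fun y hy => ?_⟩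
        rw [LinearMap.add_apply]
        exact le_trans (norm_add_le _ _) (add_le_add (hC y hy) (hC' y hy))
      zero_mem' := ⟨0, fun y _ => by simp⟩
      smul_mem' := by
        rintro c f ⟨C, hC⟩
        refine ⟨‖c‖ * C, fun y hy => ?_⟩
        rw [LinearMap.smul_apply, norm_smul]
        exact mul_le_mul_of_nonneg_left (hC y hy) (norm_nonneg _) }
  have hWdef : ∀ f, f ∈ W ↔ ∃ C : ℝ, ∀ y ∈ Y, ‖f y‖ ≤ C := fun f => Iff.rfl
  have hTW : ∀ f ∈ W, T f ∈ W := by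
    intro f hf
    rw [hWdef] at hf ⊢
    obtain ⟨C, hC⟩ := hf
    exact ⟨C, fun y hy => by rw [hT]; exact hC _ (Y.mul_mem hθY hy)⟩
  have hfin : FiniteDimensional ℂ (K →ₗ[ℚ] ℂ) := inferInstance
  have hnt : Nontrivial W := by
    refine ⟨⟨⟨ℓ, (hWdef ℓ).2 ⟨L, hL⟩⟩, 0, ?_⟩⟩
    intro h
    apply hℓ
    exact congrArg Subtype.val h
  obtain ⟨μ, hμ⟩ := Module.End.exists_eigenvalue (T.restrict hTW)
  obtain ⟨v, hv⟩ := hμ.exists_hasEigenvector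
  have hv0 : v ≠ 0 := hv.2
  have hv1 : (T.restrict hTW) v = μ • v := hv.apply_eq_smul
  obtain ⟨f, hf⟩ : ∃ f : K →ₗ[ℚ] ℂ, f = (v : K →ₗ[ℚ] ℂ) := ⟨_, rfl⟩
  have hf0 : f ≠ 0 := by
    rw [hf]
    intro h
    apply hv0
    exact Subtype.ext h
  have hfW : f ∈ W := by rw [hf]; exact v.2
  have hfT : ∀ x, f (θ * x) = μ * f x := by
    intro x
    have h1 : T f = μ • f := by
      have := congrArg Subtype.val hv1
      rw [hf]
      exact this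
    have h2 := congrArg (fun g : K →ₗ[ℚ] ℂ => g x) h1
    exact h2
  obtain ⟨b, hb⟩ : ∃ b : K, b = ⟨β, hβK⟩ := ⟨_, rfl⟩
  have hb' : (b : ℂ) = β := by rw [hb]
  have h2' : β - 2 ≠ 0 := sub_ne_zero.mpr h2
  have hinv : (θ - 1) * (b - 2) = 1 := by
    apply Subtype.ext
    have : (((θ - 1) * (b - 2) : K) : ℂ) = ((θ : ℂ) - 1) * ((b : ℂ) - 2) := by
      push_cast
      rfl
    rw [this, hθ, hb']
    show ((β - 1) / (β - 2) - 1) * (β - 2) = ((1 : K) : ℂ)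
    rw [OneMemClass.coe_one]
    field_simp
    ring
  have hdiff : ∀ x, f ((θ - 1) * x) = (μ - 1) * f x := by
    intro x
    rw [sub_mul, one_mul, map_sub, hfT]
    ring
  have hμ1 : μ - 1 ≠ 0 := by
    intro h
    apply hf0
    ext y
    have e : y = (θ - 1) * ((b - 2) * y) := by rw [← mul_assoc, hinv, one_mul]
    rw [e, hdiff, h, zero_mul]
    rfl
  obtain ⟨C, hC⟩ := (hWdef f).1 hfW
  refine ⟨2 + 1 / (μ - 1), C, f, hf0, ?_, hC⟩
  intro x x' hxx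
  have ex : x' = b * x := by
    apply Subtype.ext
    rw [hxx]
    show β * (x : ℂ) = ((b * x : K) : ℂ)
    rw [MulMemClass.coe_mul, hb']
  have e1 : f x = (μ - 1) * f ((b - 2) * x) := by
    rw [← hdiff, ← mul_assoc, hinv, one_mul]
  have e2 : f ((b - 2) * x) = f (b * x) - 2 * f x := by
    have : (b - 2) * x = b * x - (x + x) := by ring
    rw [this, map_sub, map_add]
    ring
  rw [e2] at e1
  rw [ex]
  have e3 : (2 + 1 / (μ - 1)) * f x = 2 * f x + f x / (μ - 1) := by ring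
  rw [e3]
  have e4 : f x / (μ - 1) = f (b * x) - 2 * f x := by
    rw [div_eq_iff hμ1]
    linear_combination e1
  rw [e4]
  ring

end Pool.Agent.Helper428.AN
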