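import Pool.Agent.Helper428.AN.Defs

set_option autoImplicit false

open Polynomial

namespace Pool.Agent.Helper428.AN



/-- Adjacency of the graph. -/
def gAdj {M : ℕ} {T : Fin M → Type} (G : ∀ i, SimpleGraph (T i)) (Ns Nt : ∀ i, Set (T i)) :
    (Option (Fin M) ⊕ (Σ i, T i)) → (Option (Fin M) ⊕ (Σ i, T i)) → Prop
  | .inl none, .inl _ => False
  | .inl (some _), .inl none => False
  | .inl (some i), .inl (some j) => i ≠ j
  | .inl none, .inr p => p.2 ∈ Ns p.1
  | .inr p, .inl none => p.2 ∈ Ns p.1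
  | .inl (some j), .inr p => p.1 = j ∧ p.2 ∈ Nt p.1
  | .inr p, .inl (some j) => p.1 = j ∧ p.2 ∈ Nt p.1
  | .inr p, .inr p' => ∃ i x y, p = ⟨i, x⟩ ∧ p' = ⟨i, y⟩ ∧ (G i).Adj x y

/-- The graph. -/
def gGraph {M : ℕ} {T : Fin M → Type} (G : ∀ i, SimpleGraph (T i)) (Ns Nt : ∀ i, Set (T i)) :
    SimpleGraph (Option (Fin M) ⊕ (Σ i, T i)) where
  Adj := gAdj G Ns Nt
  symm := by
    constructor
    intro v w h
    rcases v with (_ | i) | p <;> rcases w with (_ | j) | p'
    · exact False.elim h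
    · exact False.elim h
    · exact h
    · exact False.elim h
    · exact fun h' => h h'.symm
    · exact h
    · exact h
    · exact h
    · obtain ⟨i, x, y, h1, h2, h3⟩ := h
      exact ⟨i, y, x, h2, h1, h3.symm⟩
  loopless := by
    constructor
    intro v h
    rcases v with (_ | i) | p
    · exact False.elim h
    · exact h rfl
    · obtain ⟨i, x, y, h1, h2, h3⟩ := h
      rw [h1] at h2
      have h4 : x = y := by
        have := eq_of_heq (Sigma.mk.inj_iff.mp h2).2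
        exact this
      exact (G i).loopless.irrefl x (h4 ▸ h3)

/-- Colourings as triples. -/
def gColEquiv {M : ℕ} {T : Fin M → Type} (G : ∀ i, SimpleGraph (T i)) (Ns Nt : ∀ i, Set (T i))
    (q : ℕ) : (gGraph G Ns Nt).Coloring (Fin q) ≃
    Σ ι : (Fin M ↪ Fin q), Σ c : Fin q, ((i : Fin M) → {f : T i → Fin q //
      (∀ x y, (G i).Adj x y → f x ≠ f y) ∧ (∀ x ∈ Ns i, f x ≠ c) ∧ ∀ x ∈ Nt i, f x ≠ ι i}) where
  toFun f := ⟨⟨fun i => f (.inl (some i)), by
      intro i j h
      by_contra hne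
      exact f.valid (show (gGraph G Ns Nt).Adj (.inl (some i)) (.inl (some j)) from hne) h⟩,
    f (.inl none), fun i => ⟨fun x => f (.inr ⟨i, x⟩),
      fun x y hxy => f.valid (show (gGraph G Ns Nt).Adj (.inr ⟨i, x⟩) (.inr ⟨i, y⟩) from
        ⟨i, x, y, rfl, rfl, hxy⟩),
      fun x hx => f.valid (show (gGraph G Ns Nt).Adj (.inr ⟨i, x⟩) (.inl none) from hx),
      fun x hx => f.valid (show (gGraph G Ns Nt).Adj (.inr ⟨i, x⟩) (.inl (some i)) from
        ⟨rfl, hx⟩)⟩⟩
  invFun t := SimpleGraph.Coloring.mk (fun v => match v with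
      | .inl none => t.2.1
      | .inl (some i) => t.1 i
      | .inr p => (t.2.2 p.1).1 p.2) (by
    intro v w h
    rcases t with ⟨ι, c, F⟩
    rcases v with (_ | i) | p <;> rcases w with (_ | j) | p'
    · exact False.elim h
    · exact False.elim h
    · exact ((F p'.1).2.2.1 p'.2 h).symm
    · exact False.elim h
    · exact fun h' => h (ι.injective h')
    · obtain ⟨rfl, h2⟩ := h
      exact ((F p'.1).2.2.2 p'.2 h2).symm
    · exact (F p.1).2.2.1 p.2 h
    · obtain ⟨rfl, h2⟩ := h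
      exact (F p.1).2.2.2 p.2 h2
    · obtain ⟨i, x, y, rfl, rfl, h3⟩ := h
      exact (F i).2.1 x y h3)
  left_inv f := by
    ext v
    rcases v with (_ | i) | p <;> rfl
  right_inv t := by
    rcases t with ⟨ι, c, F⟩
    rfl

theorem g_fibre_aux {M q : ℕ} (A B : Fin M → ℤ) (ι : Fin M ↪ Fin q) :
    ∑ c : Fin q, ∏ i, (if c = ι i then A i else B i) =
      ((q : ℤ) - M) * ∏ i, B i + ∑ i, A i * ∏ j ∈ Finset.univ.erase i, B j := by
  classical
  rw [← Finset.sum_compl_add_sum ((Finset.univ : Finset (Fin M)).map ι)]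
  congr 1
  · have h6 : ∀ c ∈ ((Finset.univ : Finset (Fin M)).map ι)ᶜ,
        ∏ i, (if c = ι i then A i else B i) = ∏ i, B i := by
      intro c hc
      refine Finset.prod_congr rfl fun i _ => ?_
      rw [if_neg]
      intro h
      exact (Finset.mem_compl.1 hc) (Finset.mem_map.2 ⟨i, Finset.mem_univ _, h.symm⟩)
    rw [Finset.sum_congr rfl h6, Finset.sum_const, nsmul_eq_mul]
    congr 1
    have h7 := Finset.card_add_card_compl ((Finset.univ : Finset (Fin M)).map ι)
    rw [Finset.card_map, Finset.card_univ, Fintype.card_fin, Fintype.card_fin] at h7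
    push_cast [← h7]
    ring
  · rw [Finset.sum_map]
    refine Finset.sum_congr rfl fun i _ => ?_
    rw [← Finset.mul_prod_erase Finset.univ _ (Finset.mem_univ i), if_pos rfl]
    congr 1
    refine Finset.prod_congr rfl fun j hj => ?_
    rw [if_neg]
    intro h
    exact (Finset.mem_erase.1 hj).1 (ι.injective h).symm

theorem g_card_aux {M : ℕ} {T : Fin M → Type} [∀ i, Fintype (T i)] (G : ∀ i, SimpleGraph (T i))
    (Ns Nt : ∀ i, Set (T i)) (a b : Fin M → ℤ[X])
    (hcard : ∀ (i : Fin M) (q : ℕ) (c c' : Fin q),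
      (Nat.card {f : T i → Fin q // (∀ x y, (G i).Adj x y → f x ≠ f y) ∧ (∀ x ∈ Ns i, f x ≠ c) ∧
        ∀ x ∈ Nt i, f x ≠ c'} : ℤ) = if c = c' then (a i).eval (q : ℤ) else (b i).eval (q : ℤ))
    (q : ℕ) : (Nat.card ((gGraph G Ns Nt).Coloring (Fin q)) : ℤ) =
      (q.descFactorial M : ℤ) * (((q : ℤ) - M) * ∏ i, (b i).eval (q : ℤ) +
        ∑ i, (a i).eval (q : ℤ) * ∏ j ∈ Finset.univ.erase i, (b j).eval (q : ℤ)) := by
  classical
  rw [Nat.card_congr (gColEquiv G Ns Nt q), Nat.card_sigma]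
  push_cast
  have h1 : ∀ ι : Fin M ↪ Fin q, (Nat.card (Σ c : Fin q, ((i : Fin M) → {f : T i → Fin q //
      (∀ x y, (G i).Adj x y → f x ≠ f y) ∧ (∀ x ∈ Ns i, f x ≠ c) ∧ ∀ x ∈ Nt i, f x ≠ ι i})) : ℤ) =
      ((q : ℤ) - M) * ∏ i, (b i).eval (q : ℤ) +
        ∑ i, (a i).eval (q : ℤ) * ∏ j ∈ Finset.univ.erase i, (b j).eval (q : ℤ) := by
    intro ι
    rw [Nat.card_sigma]
    push_cast
    rw [← g_fibre_aux (fun i => (a i).eval (q : ℤ)) (fun i => (b i).eval (q : ℤ)) ι]
    refine Finset.sum_congr rfl fun c _ => ?_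
    rw [Nat.card_pi]
    push_cast
    exact Finset.prod_congr rfl fun i _ => hcard i q c (ι i)
  rw [Finset.sum_congr rfl fun ι _ => h1 ι, Finset.sum_const, nsmul_eq_mul]
  congr 2
  rw [Finset.card_univ, Fintype.card_embedding_eq, Fintype.card_fin, Fintype.card_fin]

theorem g_graph (M : ℕ) (a b : Fin M → ℤ[X]) (h : ∀ i, IsGadget (a i) (b i)) :
    ∃ (m : ℕ) (G : SimpleGraph (Fin m)), ∀ q : ℕ,
      (descPochhammer ℤ M * ((X - C (M : ℤ)) * ∏ i, b i +
        ∑ i, a i * ∏ j ∈ Finset.univ.erase i, b j)).eval (q : ℤ) =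
        (Nat.card (G.Coloring (Fin q)) : ℤ) := by
  classical
  unfold IsGadget at h
  choose T hT G Ns Nt hcard using h
  refine ⟨Fintype.card (Option (Fin M) ⊕ (Σ i, T i)),
    (gGraph G Ns Nt).map (Fintype.equivFin (Option (Fin M) ⊕ (Σ i, T i))).toEmbedding,
    fun q => ?_⟩
  have e : (gGraph G Ns Nt) ≃g
      (gGraph G Ns Nt).map (Fintype.equivFin (Option (Fin M) ⊕ (Σ i, T i))).toEmbedding :=
    SimpleGraph.Iso.map (Fintype.equivFin (Option (Fin M) ⊕ (Σ i, T i))) (gGraph G Ns Nt)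
  have h1 : Nat.card (((gGraph G Ns Nt).map
      (Fintype.equivFin (Option (Fin M) ⊕ (Σ i, T i))).toEmbedding).Coloring (Fin q)) =
      Nat.card ((gGraph G Ns Nt).Coloring (Fin q)) := by
    refine Nat.card_congr ⟨fun f => f.comp e.toHom, fun f => f.comp e.symm.toHom, ?_, ?_⟩
    · intro f
      ext v
      simp
    · intro f
      ext v
      simp
  rw [h1, g_card_aux G Ns Nt a b hcard q]
  simp only [eval_mul, eval_add, eval_sub, eval_X, eval_C, eval_prod, eval_finsetSum]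
  rw [descPochhammer_eval_eq_descFactorial]

end Pool.Agent.Helper428.AN
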