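import Pool.Agent.Helper428.AN.Defs
import Pool.Agent.Helper428.AN.P_g_one
import Pool.Agent.Helper428.AN.P_g_joinN

set_option autoImplicit false

open Polynomial

namespace Pool.Agent.Helper428.AN



theorem neg_gadget (k : ℕ) (hk : 1 ≤ k) : ∃ a b : ℤ[X], IsGadget a b ∧
    ∀ z : ℂ, (∀ n : ℤ, z ≠ n) → (z.im ≠ 0 ∨ (2 < z.re ∧ z.re < k)) →
      aeval z b ≠ 0 ∧ ((aeval z a / aeval z b : ℂ).im ≠ 0 ∨ (aeval z a / aeval z b : ℂ).re < 0) := by
  refine ⟨_, _, g_joinN g_one k, ?_⟩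
  intro z hz hzz
  have hne : ∀ n : ℤ, z - n ≠ 0 := fun n => sub_ne_zero.2 (hz n)
  have ea : aeval z ((∏ i ∈ Finset.range k, (X - C ((i : ℤ) + 1))) *
      (1 : ℤ[X]).comp (X - C (k : ℤ))) = ∏ i ∈ Finset.range k, (z - ((i : ℂ) + 1)) := by
    rw [one_comp, mul_one, map_prod]
    refine Finset.prod_congr rfl fun i _ => ?_
    simp
  have eb : aeval z ((∏ i ∈ Finset.range k, (X - C ((i : ℤ) + 2))) *
      (1 : ℤ[X]).comp (X - C (k : ℤ))) = ∏ i ∈ Finset.range k, (z - ((i : ℂ) + 2)) := by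
    rw [one_comp, mul_one, map_prod]
    refine Finset.prod_congr rfl fun i _ => ?_
    rw [map_sub, aeval_X, aeval_C]
    simp
  rw [ea, eb]
  have hb : ∏ i ∈ Finset.range k, (z - ((i : ℂ) + 2)) ≠ 0 := by
    refine Finset.prod_ne_zero_iff.2 fun i _ => ?_
    have := hne ((i : ℤ) + 2)
    push_cast at this
    exact this
  have hk1 : z - 1 - (k : ℂ) ≠ 0 := by
    have := hne ((k : ℤ) + 1)
    push_cast at this
    intro h0
    apply this
    rw [← h0]; ring
  have htel : (∏ i ∈ Finset.range k, (z - ((i : ℂ) + 1))) * (z - 1 - (k : ℂ)) =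
      (∏ i ∈ Finset.range k, (z - ((i : ℂ) + 2))) * (z - 1) := by
    have h1 := Finset.prod_range_succ (fun i : ℕ => z - ((i : ℂ) + 1)) k
    have h2 := Finset.prod_range_succ' (fun i : ℕ => z - ((i : ℂ) + 1)) k
    have h3 : ∏ i ∈ Finset.range k, (z - (((i + 1 : ℕ) : ℂ) + 1)) =
        ∏ i ∈ Finset.range k, (z - ((i : ℂ) + 2)) := by
      refine Finset.prod_congr rfl fun i _ => ?_
      push_cast; ring
    rw [h3] at h2
    have h4 : z - 1 - (k : ℂ) = z - ((k : ℂ) + 1) := by ring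
    rw [h4, ← h1, h2]
    simp
  have hdiv : (∏ i ∈ Finset.range k, (z - ((i : ℂ) + 1))) /
      (∏ i ∈ Finset.range k, (z - ((i : ℂ) + 2))) = (z - 1) / (z - 1 - (k : ℂ)) := by
    rw [div_eq_div_iff hb hk1, htel, mul_comm]
  refine ⟨hb, ?_⟩
  rw [hdiv]
  have hN : 0 < Complex.normSq (z - 1 - (k : ℂ)) := Complex.normSq_pos.2 hk1
  have hkr : (1 : ℝ) ≤ k := by exact_mod_cast hk
  have hre1 : (z - 1).re = z.re - 1 := by simp
  have him1 : (z - 1).im = z.im := by simp
  have hre2 : (z - 1 - (k : ℂ)).re = z.re - 1 - k := by simp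
  have him2 : (z - 1 - (k : ℂ)).im = z.im := by simp
  by_cases him : z.im = 0
  · right
    rcases hzz with h | ⟨h1, h2⟩
    · exact absurd him h
    · rw [Complex.div_re, hre1, him1, hre2, him2, him, mul_zero, zero_div, add_zero]
      exact div_neg_of_neg_of_pos (mul_neg_of_pos_of_neg (by linarith) (by linarith)) hN
  · left
    rw [Complex.div_im, hre1, him1, hre2, him2, ← sub_div]
    refine div_ne_zero ?_ hN.ne'
    have : z.im * (z.re - 1 - k) - (z.re - 1) * z.im = -(k * z.im) := by ring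
    rw [this]
    exact neg_ne_zero.2 (mul_ne_zero (by positivity) him)

end Pool.Agent.Helper428.AN
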