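import Pool.Agent.Helper428.AN.Defs

set_option autoImplicit false

open Polynomial

namespace Pool.Agent.Helper428.AN



theorem place (β : ℂ) (hβ : IsIntegral ℤ β)
    (ℓ' : (IntermediateField.adjoin ℚ ({β} : Set ℂ)) →ₗ[ℚ] ℂ) (hℓ' : ℓ' ≠ 0) (z : ℂ)
    (hz : ∀ (x x' : IntermediateField.adjoin ℚ ({β} : Set ℂ)), (x' : ℂ) = β * x →
      ℓ' x' = z * ℓ' x)
    (Y : Submonoid (IntermediateField.adjoin ℚ ({β} : Set ℂ))) (L' : ℝ)
    (hL' : ∀ y ∈ Y, ‖ℓ' y‖ ≤ L') :
    aeval z (minpoly ℚ β) = 0 ∧ ∀ (a b : ℤ[X]), ∀ y ∈ Y, (y : ℂ) * aeval β b = aeval β a →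
      aeval z b ≠ 0 → ‖aeval z a‖ ≤ ‖aeval z b‖ := by
  classical
  have hβQ : IsIntegral ℚ β := hβ.tower_top
  -- powers
  have hpow : ∀ (n : ℕ) (x x' : IntermediateField.adjoin ℚ ({β} : Set ℂ)),
      (x' : ℂ) = β ^ n * x → ℓ' x' = z ^ n * ℓ' x := by
    intro n
    induction n with
    | zero =>
      intro x x' h
      have : x' = x := by
        apply Subtype.ext
        rw [h]; simp
      rw [this]; simp
    | succ n ih =>
      intro x x' h
      have hmem : β ^ n * (x : ℂ) ∈ IntermediateField.adjoin ℚ ({β} : Set ℂ) :=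
        mul_mem (pow_mem (IntermediateField.mem_adjoin_simple_self ℚ β) n) x.2
      have h1 := ih x ⟨β ^ n * (x : ℂ), hmem⟩ rfl
      have h2 := hz ⟨β ^ n * (x : ℂ), hmem⟩ x' (by rw [h]; simp only [pow_succ]; ring)
      rw [h2, h1]; ring
  have hlin : ∀ (u : ℚ[X]) (x x' : IntermediateField.adjoin ℚ ({β} : Set ℂ)),
      (x' : ℂ) = aeval β u * x → ℓ' x' = aeval z u * ℓ' x := by
    intro u
    induction u using Polynomial.induction_on' with
    | add p q hp hq =>
      intro x x' h
      have key : ∀ r : ℚ[X], aeval β r * (x : ℂ) ∈ IntermediateField.adjoin ℚ ({β} : Set ℂ) := by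
        intro r
        refine mul_mem ?_ x.2
        have h0 : aeval β r ∈ Algebra.adjoin ℚ ({β} : Set ℂ) := by
          rw [Algebra.adjoin_singleton_eq_range_aeval]
          exact ⟨r, rfl⟩
        exact IntermediateField.algebra_adjoin_le_adjoin ℚ _ h0
      have e1 := hp x ⟨_, key p⟩ rfl
      have e2 := hq x ⟨_, key q⟩ rfl
      have e3 : x' = ⟨_, key p⟩ + ⟨_, key q⟩ := by
        apply Subtype.ext
        rw [h]
        simp only [map_add, add_mul]
        rfl
      rw [e3, map_add, e1, e2, map_add, add_mul]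
    | monomial n a =>
      intro x x' h
      have hmem : β ^ n * (x : ℂ) ∈ IntermediateField.adjoin ℚ ({β} : Set ℂ) :=
        mul_mem (pow_mem (IntermediateField.mem_adjoin_simple_self ℚ β) n) x.2
      have e1 := hpow n x ⟨_, hmem⟩ rfl
      have e3 : x' = a • (⟨_, hmem⟩ : IntermediateField.adjoin ℚ ({β} : Set ℂ)) := by
        apply Subtype.ext
        rw [h, aeval_monomial, mul_assoc, ← Algebra.smul_def]
        rfl
      rw [e3, map_smul, e1, aeval_monomial, mul_assoc, ← Algebra.smul_def]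
  have hrep : ∀ x : IntermediateField.adjoin ℚ ({β} : Set ℂ), ∃ u : ℚ[X], (x : ℂ) = aeval β u := by
    intro x
    have hx : (x : ℂ) ∈ (IntermediateField.adjoin ℚ ({β} : Set ℂ)).toSubalgebra := x.2
    rw [IntermediateField.adjoin_simple_toSubalgebra_of_isAlgebraic hβQ.isAlgebraic,
      Algebra.adjoin_singleton_eq_range_aeval] at hx
    obtain ⟨u, hu⟩ := hx
    exact ⟨u, hu.symm⟩
  have hone : ℓ' 1 ≠ 0 := by
    intro h0
    apply hℓ'
    ext x
    obtain ⟨u, hu⟩ := hrep x
    have := hlin u 1 x (by rw [hu]; simp)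
    rw [this, h0, mul_zero]
    rfl
  refine ⟨?_, ?_⟩
  · have h1 := hlin (minpoly ℚ β) 1 0 (by rw [minpoly.aeval]; simp)
    rw [map_zero] at h1
    rcases mul_eq_zero.mp h1.symm with h | h
    · exact h
    · exact absurd h hone
  · intro a b y hy hyab hb
    have hmul : ∀ x : IntermediateField.adjoin ℚ ({β} : Set ℂ),
        aeval z a * ℓ' x = aeval z b * ℓ' (y * x) := by
      intro x
      have ha' : aeval z (a.map (Int.castRingHom ℚ)) = aeval z a :=
        aeval_map_algebraMap ℚ z a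
      have hb' : aeval z (b.map (Int.castRingHom ℚ)) = aeval z b :=
        aeval_map_algebraMap ℚ z b
      have haβ : aeval β (a.map (Int.castRingHom ℚ)) = aeval β a :=
        aeval_map_algebraMap ℚ β a
      have hbβ : aeval β (b.map (Int.castRingHom ℚ)) = aeval β b :=
        aeval_map_algebraMap ℚ β b
      have hmem : aeval β a * (x : ℂ) ∈ IntermediateField.adjoin ℚ ({β} : Set ℂ) := by
        refine mul_mem ?_ x.2
        have h0 : aeval β (a.map (Int.castRingHom ℚ)) ∈ Algebra.adjoin ℚ ({β} : Set ℂ) := by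
          rw [Algebra.adjoin_singleton_eq_range_aeval]
          exact ⟨_, rfl⟩
        rw [haβ] at h0
        exact IntermediateField.algebra_adjoin_le_adjoin ℚ _ h0
      have e1 := hlin (a.map (Int.castRingHom ℚ)) x ⟨_, hmem⟩ (by rw [haβ])
      have e2 := hlin (b.map (Int.castRingHom ℚ)) (y * x) ⟨_, hmem⟩ (by
        rw [hbβ]
        change aeval β a * (x : ℂ) = aeval β b * ((y : ℂ) * (x : ℂ))
        rw [← hyab]; ring)
      rw [ha'] at e1
      rw [hb'] at e2
      rw [← e1, e2]
    have hstep : ∀ k : ℕ, ℓ' (y ^ k) = (aeval z a / aeval z b) ^ k * ℓ' 1 := by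
      intro k
      induction k with
      | zero => simp
      | succ k ih =>
        have h1 := hmul (y ^ k)
        have h2 : ℓ' (y * y ^ k) = aeval z a / aeval z b * ℓ' (y ^ k) := by
          field_simp
          rw [h1, mul_comm]
        rw [pow_succ', h2, ih, pow_succ]; ring
    by_contra hlt
    push Not at hlt
    have hbpos : 0 < ‖aeval z b‖ := norm_pos_iff.mpr hb
    have hc : 1 < ‖aeval z a / aeval z b‖ := by
      rw [norm_div, one_lt_div hbpos]
      exact hlt
    have hpos : 0 < ‖ℓ' 1‖ := norm_pos_iff.mpr hone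
    obtain ⟨k, hk⟩ := pow_unbounded_of_one_lt (L' / ‖ℓ' 1‖) hc
    have h3 := hL' (y ^ k) (pow_mem hy k)
    rw [hstep k, norm_mul, norm_pow] at h3
    rw [div_lt_iff₀ hpos] at hk
    linarith

end Pool.Agent.Helper428.AN
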