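import Pool.Agent.Helper428.AN.Defs
import Pool.Agent.Helper428.AN.P_g_one
import Pool.Agent.Helper428.AN.P_g_path2
import Pool.Agent.Helper428.AN.P_g_mul
import Pool.Agent.Helper428.AN.P_g_graph
import Pool.Agent.Helper428.AN.P_big_nonreal
import Pool.Agent.Helper428.AN.P_neg_gadget
import Pool.Agent.Helper428.AN.P_cone_sep
import Pool.Agent.Helper428.AN.P_below_bound
import Pool.Agent.Helper428.AN.P_eigen
import Pool.Agent.Helper428.AN.P_place
import Pool.Agent.Helper428.AN.P_group_lemma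

set_option autoImplicit false

open Polynomial

namespace Pool.Agent.Helper428.AN

/-- `z` is a root of the chromatic polynomial of some finite graph -/
def ChromRoot (z : ℂ) : Prop :=
  ∃ (m : ℕ) (G : SimpleGraph (Fin m)) (p : ℤ[X]),
    (∀ q : ℕ, p.eval (q : ℤ) = (Nat.card (G.Coloring (Fin q)) : ℤ)) ∧ aeval z p = 0

lemma aeval_two (z : ℂ) : aeval z (2 : ℤ[X]) = 2 := map_ofNat _ 2

lemma extract (β : ℂ) (x : ℂ)
    (h : x ∈ AddSubmonoid.closure {v : ℂ | ∃ a b : ℤ[X], IsGadget a b ∧ aeval β b ≠ 0 ∧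
      v = aeval β a / aeval β b - 1}) :
    ∃ (M : ℕ) (a b : Fin M → ℤ[X]), (∀ i, IsGadget (a i) (b i)) ∧ (∀ i, aeval β (b i) ≠ 0) ∧
      x = ∑ i, (aeval β (a i) / aeval β (b i) - 1) := by
  induction h using AddSubmonoid.closure_induction with
  | mem v hv =>
    obtain ⟨a, b, h1, h2, h3⟩ := hv
    exact ⟨1, fun _ => a, fun _ => b, fun _ => h1, fun _ => h2, by simp [h3]⟩
  | zero => exact ⟨0, fun i => i.elim0, fun i => i.elim0, fun i => i.elim0, fun i => i.elim0, by simp⟩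
  | add u v _ _ hu hv =>
    obtain ⟨M₁, a₁, b₁, h₁, k₁, e₁⟩ := hu
    obtain ⟨M₂, a₂, b₂, h₂, k₂, e₂⟩ := hv
    refine ⟨M₁ + M₂, Fin.append a₁ a₂, Fin.append b₁ b₂, ?_, ?_, ?_⟩
    · intro i
      refine Fin.addCases (fun i => ?_) (fun i => ?_) i
      · rw [Fin.append_left, Fin.append_left]; exact h₁ i
      · rw [Fin.append_right, Fin.append_right]; exact h₂ i
    · intro i
      refine Fin.addCases (fun i => ?_) (fun i => ?_) i
      · rw [Fin.append_left]; exact k₁ i
      · rw [Fin.append_right]; exact k₂ i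
    · rw [Fin.sum_univ_add, e₁, e₂]
      simp only [Fin.append_left, Fin.append_right]

lemma chrom_of_sum (β : ℂ) (M : ℕ) (a b : Fin M → ℤ[X]) (h : ∀ i, IsGadget (a i) (b i))
    (hb : ∀ i, aeval β (b i) ≠ 0) (hs : -β = ∑ i, (aeval β (a i) / aeval β (b i) - 1)) :
    ChromRoot β := by
  obtain ⟨m, G, hG⟩ := g_graph M a b h
  refine ⟨m, G, _, hG, ?_⟩
  rw [map_mul]
  apply mul_eq_zero_of_right
  simp only [map_add, map_mul, map_sub, map_prod, map_sum, aeval_X]
  have h1 : ∀ i, aeval β (a i) * ∏ j ∈ Finset.univ.erase i, aeval β (b j) =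
      (aeval β (a i) / aeval β (b i)) * ∏ j, aeval β (b j) := by
    intro i
    rw [← Finset.mul_prod_erase Finset.univ (fun j => aeval β (b j)) (Finset.mem_univ i)]
    field_simp [hb i]
  rw [Finset.sum_congr rfl (fun i _ => h1 i), ← Finset.sum_mul, ← add_mul]
  apply mul_eq_zero_of_left
  rw [Finset.sum_sub_distrib] at hs
  simp only [Finset.sum_const, Finset.card_univ, Fintype.card_fin, nsmul_eq_mul, mul_one] at hs
  have h2 : aeval β (C (M : ℤ)) = (M : ℂ) := by simp
  rw [h2]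
  linear_combination -hs

/-- conjugates: an integer polynomial vanishing at a conjugate of `β` vanishes at `β` -/
lemma conj_vanish (β z : ℂ) (hβ : IsIntegral ℤ β) (hz : aeval z (minpoly ℚ β) = 0) (b : ℤ[X])
    (hb : aeval z b = 0) : aeval β b = 0 := by
  have hβQ : IsIntegral ℚ β := hβ.tower_top
  have h1 : minpoly ℚ z = minpoly ℚ β := by
    refine (minpoly.eq_of_irreducible_of_monic (minpoly.irreducible hβQ) hz
      (minpoly.monic hβQ)).symm
  have h2 : aeval z (b.map (algebraMap ℤ ℚ)) = 0 := by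
    rw [aeval_map_algebraMap]; exact hb
  have h3 : minpoly ℚ z ∣ b.map (algebraMap ℤ ℚ) := minpoly.dvd ℚ z h2
  rw [h1] at h3
  obtain ⟨c, hc⟩ := h3
  have h4 : aeval β (b.map (algebraMap ℤ ℚ)) = 0 := by
    rw [hc, map_mul, minpoly.aeval, zero_mul]
  rw [aeval_map_algebraMap] at h4
  exact h4

/-- **Every algebraic integer that is not a rational integer and all whose real conjugates are
greater than `2` is a chromatic root.** -/
theorem chrom_of_conj (β : ℂ) (hβ : IsIntegral ℤ β) (hint : ∀ n : ℤ, β ≠ n)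
    (hconj : ∀ z : ℂ, aeval z (minpoly ℚ β) = 0 → z.im ≠ 0 ∨ 2 < z.re) : ChromRoot β := by
  classical
  have hβQ : IsIntegral ℚ β := hβ.tower_top
  have hP0 : minpoly ℚ β ≠ 0 := minpoly.ne_zero hβQ
  set K := IntermediateField.adjoin ℚ ({β} : Set ℂ) with hK
  have : FiniteDimensional ℚ K := IntermediateField.adjoin.finiteDimensional hβQ
  have hβK : β ∈ K := IntermediateField.mem_adjoin_simple_self ℚ β
  set β' : K := ⟨β, hβK⟩ with hβ'
  have hcoe : ∀ p : ℤ[X], ((aeval β' p : K) : ℂ) = aeval β p := by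
    intro p
    have h1 := Polynomial.aeval_algebraMap_apply ℂ β' p
    have h2 : (algebraMap K ℂ) β' = β := rfl
    rw [h2] at h1
    rw [h1]
    rfl
  have h2β : β ≠ 2 := by
    have := hint 2
    simpa using this
  -- the submonoid of gadget values
  set Y : Submonoid K :=
    { carrier := {y | ∃ a b : ℤ[X], IsGadget a b ∧ aeval β b ≠ 0 ∧
        (y : ℂ) * aeval β b = aeval β a}
      one_mem' := ⟨1, 1, g_one, by simp, by simp⟩
      mul_mem' := by
        rintro y y' ⟨a, b, h1, h2, h3⟩ ⟨a', b', h1', h2', h3'⟩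
        refine ⟨a * a', b * b', g_mul h1 h1', ?_, ?_⟩
        · rw [map_mul]; exact mul_ne_zero h2 h2'
        · rw [map_mul, map_mul]
          push_cast
          linear_combination (aeval β b' * (y' : ℂ)) * h3 + aeval β a * h3' } with hY
  have hYmem : ∀ y : K, y ∈ Y ↔ ∃ a b : ℤ[X], IsGadget a b ∧ aeval β b ≠ 0 ∧
      (y : ℂ) * aeval β b = aeval β a := fun y => Iff.rfl
  -- elements of Y from gadgets
  have hYof : ∀ a b : ℤ[X], IsGadget a b → aeval β b ≠ 0 →
      ∃ y ∈ Y, (y : ℂ) = aeval β a / aeval β b ∧ (y : ℂ) * aeval β b = aeval β a := by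
    intro a b h1 h2
    have h3 : ((aeval β' a / aeval β' b : K) : ℂ) = aeval β a / aeval β b := by
      push_cast
      rw [hcoe, hcoe]
    have h4 : ((aeval β' a / aeval β' b : K) : ℂ) * aeval β b = aeval β a := by
      rw [h3, div_mul_cancel₀ _ h2]
    exact ⟨aeval β' a / aeval β' b, (hYmem _).2 ⟨a, b, h1, h2, h4⟩, h3, h4⟩
  have hb2 : aeval β (X - 2 : ℤ[X]) ≠ 0 := by
    have : aeval β (X - 2 : ℤ[X]) = β - 2 := by simp [aeval_two]
    rw [this]
    exact sub_ne_zero.2 h2β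
  obtain ⟨θ, hθY, hθ, _⟩ := hYof (X - 1) (X - 2) g_path2 hb2
  have hθ' : (θ : ℂ) = (β - 1) / (β - 2) := by
    rw [hθ]; simp [aeval_two]
  -- the gadget without positive real values
  obtain ⟨k, hk1, hk⟩ : ∃ k : ℕ, 1 ≤ k ∧ ∀ z : ℂ, aeval z (minpoly ℚ β) = 0 → z.re < k := by
    have hfin : ((minpoly ℚ β).rootSet ℂ).Finite := Polynomial.rootSet_finite _ _
    obtain ⟨R, hR⟩ := (hfin.image Complex.re).bddAbove
    obtain ⟨k, hk⟩ := exists_nat_gt R
    refine ⟨k + 1, by omega, fun z hz => ?_⟩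
    have h1 : z.re ≤ R := hR ⟨z, (Polynomial.mem_rootSet.2 ⟨hP0, hz⟩), rfl⟩
    push_cast
    linarith
  have hzint : ∀ z : ℂ, aeval z (minpoly ℚ β) = 0 → ∀ n : ℤ, z ≠ n := by
    intro z hz n hzn
    have h1 : aeval z (X - C n : ℤ[X]) = 0 := by
      rw [map_sub, aeval_X, hzn]
      simp
    have h2 := conj_vanish β z hβ hz _ h1
    rw [map_sub, aeval_X] at h2
    apply hint n
    have h3 : aeval β (C n : ℤ[X]) = (n : ℂ) := by simp
    rw [h3] at h2
    exact sub_eq_zero.1 h2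
  obtain ⟨a₀, b₀, hg₀, h₀⟩ := neg_gadget k hk1
  have h₀' : ∀ z : ℂ, aeval z (minpoly ℚ β) = 0 →
      aeval z b₀ ≠ 0 ∧ ((aeval z a₀ / aeval z b₀ : ℂ).im ≠ 0 ∨
        (aeval z a₀ / aeval z b₀ : ℂ).re < 0) := by
    intro z hz
    apply h₀ z (hzint z hz)
    rcases hconj z hz with h | h
    · exact Or.inl h
    · exact Or.inr ⟨h, hk z hz⟩
  have hβroot : aeval β (minpoly ℚ β) = 0 := minpoly.aeval _ _
  obtain ⟨X₀, hX₀Y, hX₀, _⟩ := hYof a₀ b₀ hg₀ (h₀' β hβroot).1
  -- the cone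
  set S : AddSubmonoid K := AddSubmonoid.closure {v : K | ∃ y ∈ Y, v = y - 1} with hS
  have hfull : ∀ x : K, ∃ n : ℕ, 0 < n ∧ n • x ∈ S := by
    by_contra hcon
    push Not at hcon
    obtain ⟨x₀, hx₀⟩ := hcon
    set C₀ : AddSubmonoid K :=
      { carrier := {x | ∃ n : ℕ, 0 < n ∧ n • x ∈ S}
        zero_mem' := ⟨1, one_pos, by rw [smul_zero]; exact zero_mem _⟩
        add_mem' := by
          rintro x y ⟨n, hn, hx⟩ ⟨m, hm, hy⟩
          refine ⟨n * m, Nat.mul_pos hn hm, ?_⟩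
          rw [smul_add]
          apply add_mem
          · rw [mul_comm, mul_smul]; exact nsmul_mem hx m
          · rw [mul_smul]; exact nsmul_mem hy n } with hC₀
    have hCmem : ∀ x : K, x ∈ C₀ ↔ ∃ n : ℕ, 0 < n ∧ n • x ∈ S := fun x => Iff.rfl
    obtain ⟨ℓ, hℓ0, hℓ⟩ := cone_sep C₀ (by
      intro x n hn hx
      obtain ⟨m, hm, h⟩ := (hCmem _).1 hx
      refine (hCmem _).2 ⟨m * n, Nat.mul_pos hm hn, ?_⟩
      rw [mul_smul]
      exact h) ⟨x₀, fun h => by
        obtain ⟨n, hn, h'⟩ := (hCmem _).1 h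
        exact hx₀ n hn h'⟩
    set L : ℝ := ℓ 1 with hL
    have hup : ∀ y ∈ Y, ℓ y ≤ L := by
      intro y hy
      have h1 : y - 1 ∈ C₀ := (hCmem _).2 ⟨1, one_pos, by
        rw [one_smul]
        exact AddSubmonoid.subset_closure ⟨y, hy, rfl⟩⟩
      have h2 := hℓ _ h1
      rw [map_sub] at h2
      linarith
    obtain ⟨B, hB, hlow⟩ := below_bound K β hβK hβ a₀ b₀ h₀' X₀ hX₀
    have hlow' : ∀ y ∈ Y, -B * L ≤ ℓ y := by
      intro y hy
      apply hlow ℓ L y
      intro i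
      exact hup _ (Y.mul_mem (Y.pow_mem hX₀Y i) hy)
    -- complex functional
    set ℓc : K →ₗ[ℚ] ℂ :=
      (Complex.ofRealCLM.toLinearMap.restrictScalars ℚ : ℝ →ₗ[ℚ] ℂ) ∘ₗ ℓ with hℓc
    have hℓc_apply : ∀ x, ℓc x = ((ℓ x : ℝ) : ℂ) := fun x => rfl
    have hℓc0 : ℓc ≠ 0 := by
      intro h0
      apply hℓ0
      apply LinearMap.ext
      intro x
      have h1 : ℓc x = 0 := by rw [h0]; rfl
      rw [hℓc_apply] at h1
      exact_mod_cast h1
    have hbd : ∀ y ∈ Y, ‖ℓc y‖ ≤ |L| + |B * L| := by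
      intro y hy
      rw [hℓc_apply, Complex.norm_real, Real.norm_eq_abs, abs_le]
      have h1 := hup y hy
      have h2 := hlow' y hy
      have h3 := le_abs_self L
      have h4 := le_abs_self (B * L)
      have h5 := abs_nonneg L
      have h6 := abs_nonneg (B * L)
      constructor <;> linarith
    obtain ⟨z, L', ℓ', hℓ'0, hz, hℓ'bd⟩ := eigen K β hβK h2β ℓc hℓc0 Y θ hθ' hθY _ hbd
    obtain ⟨hzroot, hplace⟩ := place β hβ ℓ' hℓ'0 z hz Y L' hℓ'bd
    have hcontra : ∀ a b : ℤ[X], IsGadget a b → aeval z b ≠ 0 → ‖aeval z b‖ < ‖aeval z a‖ →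
        False := by
      intro a b h1 h2 h3
      have h4 : aeval β b ≠ 0 := by
        intro h0
        apply h2
        -- a polynomial vanishing at β vanishes at the conjugate z
        have h5 : minpoly ℚ β ∣ b.map (algebraMap ℤ ℚ) := by
          apply minpoly.dvd
          rw [aeval_map_algebraMap]
          exact h0
        obtain ⟨c, hc⟩ := h5
        have h6 : aeval z (b.map (algebraMap ℤ ℚ)) = 0 := by
          rw [hc, map_mul, hzroot, zero_mul]
        rw [aeval_map_algebraMap] at h6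
        exact h6
      obtain ⟨y, hyY, _, hy⟩ := hYof a b h1 h4
      exact absurd (hplace a b y hyY hy h2) (not_le.2 h3)
    rcases hconj z hzroot with h | h
    · obtain ⟨a, b, h1, h2, h3⟩ := big_nonreal z h
      exact hcontra a b h1 h2 h3
    · have e1 : aeval z (X - 1 : ℤ[X]) = z - 1 := by simp
      have e2 : aeval z (X - 2 : ℤ[X]) = z - 2 := by simp [aeval_two]
      apply hcontra (X - 1) (X - 2) g_path2
      · rw [e2]
        intro h0
        have : z = 2 := sub_eq_zero.1 h0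
        rw [this] at h
        simp at h
      · rw [e1, e2]
        rw [← sq_lt_sq₀ (norm_nonneg _) (norm_nonneg _), ← Complex.normSq_eq_norm_sq,
          ← Complex.normSq_eq_norm_sq, Complex.normSq_apply, Complex.normSq_apply]
        simp
        nlinarith
  have hθeq : θ * (β' - 2) = β' - 1 := by
    apply Subtype.ext
    have h3 : (β : ℂ) - 2 ≠ 0 := sub_ne_zero.2 h2β
    have h4 : ((θ * (β' - 2) : K) : ℂ) = (θ : ℂ) * (β - 2) := rfl
    have h5 : ((β' - 1 : K) : ℂ) = β - 1 := rfl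
    rw [h4, h5, hθ', div_mul_cancel₀ _ h3]
  have hβ'int : IsIntegral ℤ β' := by
    have h1 : IsIntegral ℤ ((algebraMap K ℂ) β') := hβ
    exact (isIntegral_algebraMap_iff (algebraMap K ℂ).injective).1 h1
  have hfinal := group_lemma β' hβ'int Y θ hθeq hθY hfull
  -- transport to ℂ
  have htrans : ∀ x ∈ S, (x : ℂ) ∈ AddSubmonoid.closure {v : ℂ | ∃ a b : ℤ[X], IsGadget a b ∧
      aeval β b ≠ 0 ∧ v = aeval β a / aeval β b - 1} := by
    intro x hx
    induction hx using AddSubmonoid.closure_induction with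
    | mem v hv =>
      obtain ⟨y, hy, rfl⟩ := hv
      obtain ⟨a, b, h1, h2, h3⟩ := (hYmem y).1 hy
      apply AddSubmonoid.subset_closure
      refine ⟨a, b, h1, h2, ?_⟩
      push_cast
      rw [← h3, mul_div_cancel_right₀ _ h2]
    | zero => push_cast; exact zero_mem _
    | add u v _ _ hu hv => push_cast; exact add_mem hu hv
  have h1 := htrans _ hfinal
  have h2 : ((-β' : K) : ℂ) = -β := rfl
  rw [h2] at h1
  obtain ⟨M, a, b, hg, hb, hsum⟩ := extract β _ h1
  exact chrom_of_sum β M a b hg hb hsum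

end Pool.Agent.Helper428.AN
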