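import Pool.Agent.Helper428.AN.Defs

set_option autoImplicit false

open Polynomial

namespace Pool.Agent.Helper428.AN



theorem group_lemma {K : Type} [Field K] [CharZero K] (β : K) (hβ : IsIntegral ℤ β)
    (Y : Submonoid K) (θ : K) (hθ : θ * (β - 2) = β - 1) (hθY : θ ∈ Y)
    (hfull : ∀ x : K, ∃ n : ℕ, 0 < n ∧ n • x ∈ AddSubmonoid.closure {v : K | ∃ y ∈ Y, v = y - 1}) :
    -β ∈ AddSubmonoid.closure {v : K | ∃ y ∈ Y, v = y - 1} := by
  set S := AddSubmonoid.closure {v : K | ∃ y ∈ Y, v = y - 1} with hS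
  have hgen : ∀ y ∈ Y, y - 1 ∈ S := fun y hy => AddSubmonoid.subset_closure ⟨y, hy, rfl⟩
  have hneg : ∀ s ∈ S, -s ∈ S := by
    intro s hs
    induction hs using AddSubmonoid.closure_induction with
    | mem v hv =>
      obtain ⟨n, hn, hnS⟩ := hfull (-v)
      obtain ⟨m, rfl⟩ : ∃ m, n = m + 1 := ⟨n - 1, by omega⟩
      have h1 : -v = (m + 1) • (-v) + m • v := by
        rw [succ_nsmul, smul_neg]; abel
      rw [h1]
      exact S.add_mem hnS (S.nsmul_mem (AddSubmonoid.subset_closure hv) m)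
    | zero => simpa using S.zero_mem
    | add x y _ _ hx hy =>
      rw [neg_add]; exact S.add_mem hx hy
  let G : AddSubgroup K := { S with neg_mem' := fun {x} hx => hneg x hx }
  have hG : ∀ x, x ∈ G ↔ x ∈ S := fun x => Iff.rfl
  have hmul : ∀ s ∈ S, s * θ ∈ S := by
    intro s hs
    induction hs using AddSubmonoid.closure_induction with
    | mem v hv =>
      obtain ⟨y, hy, rfl⟩ := hv
      have h1 : (y - 1) * θ = (y * θ - 1) - (θ - 1) := by ring
      rw [h1]
      exact G.sub_mem (hgen _ (Y.mul_mem hy hθY)) (hgen _ hθY)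
    | zero => simpa using S.zero_mem
    | add x y _ _ hx hy =>
      rw [add_mul]; exact S.add_mem hx hy
  set v := θ - 1 with hv
  set γ := β - 2 with hγ
  have hvγ : v * γ = 1 := by
    rw [hv, sub_mul, hθ, hγ]; ring
  have hmulv : ∀ s ∈ S, s * v ∈ S := by
    intro s hs
    rw [hv, mul_sub, mul_one]
    exact G.sub_mem (hmul s hs) hs
  have hvS : v ∈ S := hgen _ hθY
  have hpow : ∀ k : ℕ, v ^ (k + 1) ∈ S := by
    intro k
    induction k with
    | zero => simpa using hvS
    | succ k ih => rw [pow_succ]; exact hmulv _ ih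
  have hγint : IsIntegral ℤ γ := by
    rw [hγ]
    refine hβ.sub ?_
    have := isIntegral_algebraMap (R := ℤ) (A := K) (x := 2)
    simpa using this
  obtain ⟨Q, hQm, hQ0⟩ := hγint
  have hd : Q.natDegree ≠ 0 := by
    intro h0
    have := Polynomial.eq_one_of_monic_natDegree_zero hQm h0
    rw [this] at hQ0
    simp at hQ0
  obtain ⟨d, hd'⟩ : ∃ d, Q.natDegree = d + 1 := ⟨Q.natDegree - 1, by omega⟩
  have hsum : γ ^ (d + 1) + ∑ i ∈ Finset.range (d + 1), (Q.coeff i : K) * γ ^ i = 0 := by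
    have h1 := hQm.as_sum
    rw [hd'] at h1
    rw [h1] at hQ0
    rw [Polynomial.eval₂_add, Polynomial.eval₂_finset_sum, Polynomial.eval₂_pow,
      Polynomial.eval₂_X] at hQ0
    rw [← hQ0]
    congr 1
    refine Finset.sum_congr rfl fun i _ => ?_
    rw [Polynomial.eval₂_mul, Polynomial.eval₂_C, Polynomial.eval₂_pow, Polynomial.eval₂_X]
    simp
  have hpv : ∀ i k : ℕ, γ ^ i * v ^ (i + k) = v ^ k := by
    intro i k
    rw [pow_add, ← mul_assoc, ← mul_pow, mul_comm γ v, hvγ, one_pow, one_mul]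
  have hone : (1:K) ∈ S := by
    have h1 : (1:K) = -∑ i ∈ Finset.range (d + 1), (Q.coeff i) • (γ ^ i * v ^ (d + 1)) := by
      have h2 := congrArg (fun t => t * v ^ (d + 1)) hsum
      simp only [add_mul, zero_mul, Finset.sum_mul] at h2
      have h3 := hpv (d + 1) 0
      rw [add_zero, pow_zero] at h3
      rw [h3] at h2
      rw [eq_neg_iff_add_eq_zero, ← h2]
      congr 1
      refine Finset.sum_congr rfl fun i _ => ?_
      rw [zsmul_eq_mul, mul_assoc]
    rw [h1]
    refine hneg _ (S.sum_mem fun i hi => ?_)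
    obtain ⟨k, hk⟩ : ∃ k, d + 1 = i + (k + 1) := ⟨d - i, by
      have := Finset.mem_range.1 hi; omega⟩
    rw [hk, hpv]
    exact G.zsmul_mem (hpow k) _
  have hpow' : ∀ k : ℕ, v ^ k ∈ S := by
    intro k
    cases k with
    | zero => simpa using hone
    | succ k => exact hpow k
  have hγS : γ ∈ S := by
    have h1 : γ = -∑ i ∈ Finset.range (d + 1), (Q.coeff i) • (γ ^ i * v ^ d) := by
      have h2 := congrArg (fun t => t * v ^ d) hsum
      simp only [add_mul, zero_mul, Finset.sum_mul] at h2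
      have h3 : γ ^ (d + 1) * v ^ d = γ := by
        have := hpv d 0
        rw [add_zero, pow_zero] at this
        rw [pow_succ, mul_right_comm, this, one_mul]
      rw [h3] at h2
      rw [eq_neg_iff_add_eq_zero, ← h2]
      congr 1
      refine Finset.sum_congr rfl fun i _ => ?_
      rw [zsmul_eq_mul, mul_assoc]
    rw [h1]
    refine hneg _ (S.sum_mem fun i hi => ?_)
    obtain ⟨k, hk⟩ : ∃ k, d = i + k := ⟨d - i, by
      have := Finset.mem_range.1 hi; omega⟩
    rw [hk, hpv]
    exact G.zsmul_mem (hpow' k) _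
  refine hneg _ ?_
  have h1 : β = γ + (1 + 1) := by rw [hγ]; ring
  rw [h1]
  exact S.add_mem hγS (S.add_mem hone hone)

end Pool.Agent.Helper428.AN
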